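import Pool.Agent.H994.AP.Sec

set_option autoImplicit false

namespace Pool.Agent.H994.AP

open Real

noncomputable def DD (l : ℝ) (n k : ℕ) : ℝ :=
  Real.log (((n : ℝ) - k) / (k + 1)) + l * Real.log (((n : ℝ) + k + 1) / (k + 1))

lemma phi_succ (l : ℝ) (n k : ℕ) (hk : k < n) : phi l n (k + 1) = phi l n k + DD l n k := by
  have h1 : (n.choose (k + 1) : ℝ) * (k + 1) = n.choose k * ((n : ℝ) - k) := by
    have := Nat.choose_succ_right_eq n k
    have h2 : ((n.choose (k + 1) * (k + 1) : ℕ) : ℝ) = ((n.choose k * (n - k) : ℕ) : ℝ) := by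
      exact_mod_cast this
    rw [Nat.cast_mul, Nat.cast_mul, Nat.cast_sub hk.le] at h2
    push_cast at h2
    exact h2
  have h3 : ((n + (k + 1)).choose (k + 1) : ℝ) * (k + 1) = (n + k).choose k * ((n : ℝ) + k + 1) := by
    have := Nat.add_one_mul_choose_eq (n + k) k
    have h4 : ((n + k + 1) * (n + k).choose k : ℝ) = ((n + k + 1).choose (k + 1) : ℝ) * (k + 1) := by
      exact_mod_cast this
    have h5 : n + (k + 1) = n + k + 1 := rfl
    rw [h5, ← h4]; ring
  have hk1 : (0 : ℝ) < (k : ℝ) + 1 := by positivity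
  have hnk : (0 : ℝ) < (n : ℝ) - k := by
    have : (k : ℝ) < n := by exact_mod_cast hk
    linarith
  have hc1 : (0 : ℝ) < (n.choose k : ℝ) := by exact_mod_cast Nat.choose_pos hk.le
  have hc2 : (0 : ℝ) < ((n + k).choose k : ℝ) := by exact_mod_cast Nat.choose_pos (by omega)
  have e1 : (n.choose (k + 1) : ℝ) = n.choose k * (((n : ℝ) - k) / (k + 1)) := by
    rw [← mul_div_assoc, eq_div_iff hk1.ne', h1]
  have e2 : ((n + (k + 1)).choose (k + 1) : ℝ) = (n + k).choose k * (((n : ℝ) + k + 1) / (k + 1)) := by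
    rw [← mul_div_assoc, eq_div_iff hk1.ne', h3]
  unfold phi DD
  rw [e1, e2, Real.log_mul hc1.ne' (by positivity), Real.log_mul hc2.ne' (by positivity)]
  ring

lemma DD_anti (l : ℝ) (hl : 0 ≤ l) (n k k' : ℕ) (h : k ≤ k') (hk : k' < n) :
    DD l n k' ≤ DD l n k := by
  have h1 : (k : ℝ) ≤ k' := by exact_mod_cast h
  have h2 : (k' : ℝ) < n := by exact_mod_cast hk
  have h0 : (0 : ℝ) ≤ k := Nat.cast_nonneg k
  unfold DD
  apply add_le_add
  · apply Real.log_le_log
    · apply div_pos <;> linarith
    · rw [div_le_div_iff₀ (by linarith) (by linarith)]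
      nlinarith
  · apply mul_le_mul_of_nonneg_left _ hl
    apply Real.log_le_log
    · apply div_pos <;> linarith
    · rw [div_le_div_iff₀ (by linarith) (by linarith)]
      nlinarith

lemma DD_mono (l : ℝ) (hl : 0 ≤ l) (n k : ℕ) (hk : k < n) : DD l n k ≤ DD l (n + 1) k := by
  have h2 : (k : ℝ) < n := by exact_mod_cast hk
  have h0 : (0 : ℝ) ≤ k := Nat.cast_nonneg k
  unfold DD
  push_cast
  apply add_le_add
  · apply Real.log_le_log
    · apply div_pos <;> linarith
    · apply div_le_div_of_nonneg_right _ (by linarith)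
      linarith
  · apply mul_le_mul_of_nonneg_left _ hl
    apply Real.log_le_log
    · apply div_pos <;> linarith
    · apply div_le_div_of_nonneg_right _ (by linarith)
      linarith

lemma DD_diag (l : ℝ) (hl : 0 ≤ l) (n k : ℕ) (hk : k < n) : DD l (n + 1) (k + 1) ≤ DD l n k := by
  have h2 : (k : ℝ) + 1 ≤ n := by exact_mod_cast hk
  have h0 : (0 : ℝ) ≤ k := Nat.cast_nonneg k
  unfold DD
  push_cast
  apply add_le_add
  · apply Real.log_le_log
    · apply div_pos <;> linarith
    · rw [div_le_div_iff₀ (by linarith) (by linarith)]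
      nlinarith
  · apply mul_le_mul_of_nonneg_left _ hl
    apply Real.log_le_log
    · apply div_pos <;> linarith
    · rw [div_le_div_iff₀ (by linarith) (by linarith)]
      nlinarith

section

variable (l : ℝ)

lemma exK (n : ℕ) : ∃ k, n ≤ k ∨ DD l n k ≤ 0 := ⟨n, Or.inl le_rfl⟩

open Classical in
noncomputable def KK (n : ℕ) : ℕ := Nat.find (exK l n)

lemma KK_le (n : ℕ) : KK l n ≤ n := by
  classical
  exact Nat.find_min' (exK l n) (Or.inl le_rfl)

lemma KK_spec (n : ℕ) (h : KK l n < n) : DD l n (KK l n) ≤ 0 := by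
  classical
  have := Nat.find_spec (exK l n)
  rcases this with h1 | h1
  · exact absurd h1 (not_le.mpr h)
  · exact h1

lemma KK_lt (n k : ℕ) (h : k < KK l n) : 0 < DD l n k ∧ k < n := by
  classical
  have := Nat.find_min (exK l n) h
  push_neg at this
  exact ⟨this.2, this.1⟩

lemma KK_le_of (n k : ℕ) (h : DD l n k ≤ 0) : KK l n ≤ k := by
  classical
  exact Nat.find_min' (exK l n) (Or.inr h)

lemma phi_le (hl : 0 ≤ l) (n k : ℕ) (hk : k ≤ n) : phi l n k ≤ phi l n (KK l n) := by
  rcases le_total k (KK l n) with h | h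
  · -- increasing up to KK
    have : ∀ m, k + m ≤ KK l n → phi l n k ≤ phi l n (k + m) := by
      intro m
      induction m with
      | zero => intro _; simp
      | succ m ih =>
        intro hm
        have h1 := ih (by omega)
        have h2 := KK_lt l n (k + m) (by omega)
        have h3 := phi_succ l n (k + m) h2.2
        have h4 : k + (m + 1) = k + m + 1 := rfl
        rw [h4, h3]
        linarith [h2.1]
    obtain ⟨m, hm⟩ := Nat.exists_eq_add_of_le h
    have := this m (by omega)
    rw [hm]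
    exact this
  · have : ∀ m, KK l n + m ≤ n → phi l n (KK l n + m) ≤ phi l n (KK l n) := by
      intro m
      induction m with
      | zero => intro _; simp
      | succ m ih =>
        intro hm
        have h1 := ih (by omega)
        have h2 : KK l n + m < n := by omega
        have h3 := phi_succ l n (KK l n + m) h2
        have h4 : KK l n + (m + 1) = KK l n + m + 1 := rfl
        have h5 := KK_spec l n (by omega)
        have h6 := DD_anti l hl n (KK l n) (KK l n + m) (by omega) h2
        rw [h4, h3]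
        linarith
    obtain ⟨m, hm⟩ := Nat.exists_eq_add_of_le h
    have := this m (by omega)
    rw [← hm] at this
    exact this

lemma F_eq (hl : 0 ≤ l) (n : ℕ) : F l n = phi l n (KK l n) := by
  unfold F
  apply le_antisymm
  · apply Finset.sup'_le
    intro k hk
    exact phi_le l hl n k (by have := Finset.mem_range.mp hk; omega)
  · apply Finset.le_sup' (phi l n)
    rw [Finset.mem_range]
    have := KK_le l n
    omega

lemma KK_mono (hl : 0 ≤ l) (n : ℕ) : KK l n ≤ KK l (n + 1) := by
  by_contra h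
  push_neg at h
  have h1 := KK_le l n
  have h2 := KK_lt l n (KK l (n + 1)) h
  have h3 := KK_spec l (n + 1) (by omega)
  have h4 := DD_mono l hl n (KK l (n + 1)) h2.2
  linarith [h2.1]

lemma KK_step (hl : 0 ≤ l) (n : ℕ) : KK l (n + 1) ≤ KK l n + 1 := by
  rcases Nat.lt_or_ge (KK l n) n with h | h
  · have h1 := KK_spec l n h
    have h2 := DD_diag l hl n (KK l n) h
    exact KK_le_of l _ _ (by linarith)
  · have := KK_le l (n + 1)
    omega

lemma KK_gap (hl : 0 ≤ l) (J : ℕ) : ∃ N, ∀ n, N ≤ n → KK l n + J ≤ n := by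
  rcases Nat.eq_zero_or_pos J with hJ | hJ
  · exact ⟨0, fun n _ => by have := KK_le l n; omega⟩
  · obtain ⟨T, hT⟩ := exists_nat_ge ((J : ℝ) * Real.exp (l * Real.log 3))
    refine ⟨2 * J + T, fun n hn => ?_⟩
    have hnJ : J ≤ n := by omega
    obtain ⟨q, rfl⟩ := Nat.exists_eq_add_of_le' hnJ
    have hq : J + T ≤ q := by omega
    have h1 : KK l (q + J) ≤ q := by
      apply KK_le_of
      unfold DD
      have hJr : (1 : ℝ) ≤ J := by exact_mod_cast hJ
      have hqr : (J : ℝ) + T ≤ q := by exact_mod_cast hq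
      have hT0 : (0 : ℝ) ≤ T := Nat.cast_nonneg T
      push_cast
      have e1 : ((q : ℝ) + J - q) / (q + 1) = J / (q + 1) := by ring
      rw [e1, Real.log_div (by linarith) (by linarith)]
      have h2 : Real.log (((q : ℝ) + J + q + 1) / (q + 1)) ≤ Real.log 3 := by
        apply Real.log_le_log
        · apply div_pos <;> linarith
        · rw [div_le_iff₀ (by linarith)]
          linarith
      have h3 : Real.log J + l * Real.log 3 ≤ Real.log ((q : ℝ) + 1) := by
        have h4 : Real.log ((J : ℝ) * Real.exp (l * Real.log 3)) ≤ Real.log ((q : ℝ) + 1) := by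
          apply Real.log_le_log
          · positivity
          · linarith
        rw [Real.log_mul (by linarith) (Real.exp_pos _).ne', Real.log_exp] at h4
        exact h4
      have h5 := mul_le_mul_of_nonneg_left h2 hl
      linarith
    omega

lemma KK_two (hl : 0 < l) (N0 : ℕ) : ∃ n, N0 ≤ n ∧ KK l (n + 2) = KK l n + 2 := by
  by_contra hcon
  push_neg at hcon
  have hle : ∀ n, N0 ≤ n → KK l (n + 2) ≤ KK l n + 1 := by
    intro n hn
    have h1 := hcon n hn
    have h2 := KK_step l hl.le n
    have h3 := KK_step l hl.le (n + 1)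
    have h4 : n + 1 + 1 = n + 2 := rfl
    rw [h4] at h3
    omega
  have hm : ∀ m, KK l (N0 + 2 * m) ≤ N0 + m := by
    intro m
    induction m with
    | zero => simpa using KK_le l N0
    | succ m ih =>
      have h1 := hle (N0 + 2 * m) (by omega)
      have h2 : N0 + 2 * (m + 1) = N0 + 2 * m + 2 := by ring
      rw [h2]
      omega
  have hlog2 : 0 < Real.log 2 := Real.log_pos (by norm_num)
  obtain ⟨m, hmm⟩ := exists_nat_gt (((N0 : ℝ) + 1) / (l * Real.log 2))
  have hm0 : (0 : ℝ) < m := lt_of_le_of_lt (by positivity) hmm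
  have hm1 : 1 ≤ m := by exact_mod_cast hm0
  have h1 := hm m
  have h2 : KK l (N0 + 2 * m) < N0 + 2 * m := by omega
  have h3 := KK_spec l _ h2
  have h4 := DD_anti l hl.le (N0 + 2 * m) _ (N0 + m) h1 (by omega)
  have h5 : 0 < DD l (N0 + 2 * m) (N0 + m) := by
    unfold DD
    push_cast
    have hN0 : (0 : ℝ) ≤ N0 := Nat.cast_nonneg N0
    have hm1r : (1 : ℝ) ≤ m := by exact_mod_cast hm1
    have e1 : ((N0 : ℝ) + 2 * m - (N0 + m)) = m := by ring
    rw [e1]
    have h6 : Real.log 2 ≤ Real.log (((N0 : ℝ) + 2 * m + (N0 + m) + 1) / (N0 + m + 1)) := by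
      apply Real.log_le_log (by norm_num)
      rw [le_div_iff₀ (by linarith)]
      linarith
    have h7 : -(((N0 : ℝ) + 1) / m) ≤ Real.log ((m : ℝ) / (N0 + m + 1)) := by
      have h8 : Real.log ((m : ℝ) / (N0 + m + 1)) = - Real.log (((N0 : ℝ) + m + 1) / m) := by
        rw [← Real.log_inv, inv_div]
      rw [h8]
      apply neg_le_neg
      have h9 : ((N0 : ℝ) + m + 1) / m = 1 + ((N0 : ℝ) + 1) / m := by
        field_simp
        ring
      rw [h9]
      have := Real.log_le_sub_one_of_pos (show (0 : ℝ) < 1 + ((N0 : ℝ) + 1) / m by positivity)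
      linarith
    have h10 : ((N0 : ℝ) + 1) / m < l * Real.log 2 := by
      rw [div_lt_iff₀ hm0]
      rw [div_lt_iff₀ (by positivity)] at hmm
      linarith
    have h11 := mul_le_mul_of_nonneg_left h6 hl.le
    linarith
  linarith

end

theorem pieceA1 : PieceA1 := by
  intro l hl J
  obtain ⟨N, hN⟩ := KK_gap l hl.le J
  obtain ⟨n, hn, h2⟩ := KK_two l hl N
  refine ⟨n, KK l n, hN n hn, F_eq l hl.le n, ?_⟩
  rw [F_eq l hl.le (n + 2), h2]

end Pool.Agent.H994.AP
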