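import Pool.Agent.H994.AP.Sec

/-! # Piece A2 -/

set_option autoImplicit false

namespace Pool.Agent.H994.AP

namespace A2aux

lemma log_help {A B C x : ℝ} (hA : 0 < A) (hB : 0 < B) (hC : 0 < C) (hx : 0 < x)
    (h : A * C = B ^ 2 * x) : Real.log A + Real.log C ≤ 2 * Real.log B + (x - 1) := by
  have h1 : Real.log (A * C) = Real.log A + Real.log C := Real.log_mul hA.ne' hC.ne'
  have h2 : Real.log (B ^ 2 * x) = 2 * Real.log B + Real.log x := by
    rw [Real.log_mul (by positivity) hx.ne', Real.log_pow]; norm_num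
  have h3 := Real.log_le_sub_one_of_pos hx
  rw [← h1, h, h2]
  linarith

lemma choose_one (n k : ℕ) :
    ((n + 1).choose (k + 1) : ℝ) * (k + 1) = (n + 1) * (n.choose k : ℝ) := by
  have := Nat.add_one_mul_choose_eq n k
  have h2 : (((n + 1) * n.choose k : ℕ) : ℝ) = (((n + 1).choose (k + 1) * (k + 1) : ℕ) : ℝ) := by
    rw [this]
  push_cast at h2
  linarith

lemma choose_two (n k : ℕ) :
    ((n + 1 + (k + 1)).choose (k + 1) : ℝ) * ((k + 1) * (n + 1)) =
      ((n + k).choose k : ℝ) * ((n + k + 2) * (n + k + 1)) := by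
  have h1 := choose_one (n + k + 1) k
  have h2 := Nat.choose_mul_succ_eq (n + k) k
  have h3 : n + k + 1 - k = n + 1 := by omega
  rw [h3] at h2
  have h4 : (((n + k).choose k * (n + k + 1) : ℕ) : ℝ) =
      (((n + k + 1).choose k * (n + 1) : ℕ) : ℝ) := by rw [h2]
  push_cast at h1 h4
  have h5 : n + 1 + (k + 1) = n + k + 1 + 1 := by ring
  rw [h5]
  have h6 : ((n + k + 1 + 1).choose (k + 1) : ℝ) * ((k + 1) * (n + 1)) =
      (((n + k + 1 + 1).choose (k + 1) : ℝ) * (k + 1)) * (n + 1) := by ring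
  rw [h6, h1]
  linear_combination ((n : ℝ) + k + 2) * (-h4)

end A2aux

open A2aux

theorem pieceA2 : PieceA2 := by
  intro l n k hl hkn hlt
  obtain ⟨j, rfl⟩ := Nat.exists_eq_add_of_le hkn
  unfold phi
  have a1 := choose_one (k + j) k
  have a2 := choose_one (k + j + 1) (k + 1)
  have b1 := choose_two (k + j) k
  have b2 := choose_two (k + j + 1) (k + 1)
  have pA : (0 : ℝ) < ((k + j).choose k : ℝ) := by exact_mod_cast Nat.choose_pos (by omega)
  have pB : (0 : ℝ) < ((k + j + 1).choose (k + 1) : ℝ) := by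
    exact_mod_cast Nat.choose_pos (by omega)
  have pC : (0 : ℝ) < ((k + j + 2).choose (k + 2) : ℝ) := by
    exact_mod_cast Nat.choose_pos (by omega)
  have pD : (0 : ℝ) < ((k + j + k).choose k : ℝ) := by exact_mod_cast Nat.choose_pos (by omega)
  have pE : (0 : ℝ) < ((k + j + 1 + (k + 1)).choose (k + 1) : ℝ) := by
    exact_mod_cast Nat.choose_pos (by omega)
  have pG : (0 : ℝ) < ((k + j + 2 + (k + 2)).choose (k + 2) : ℝ) := by
    exact_mod_cast Nat.choose_pos (by omega)
  have e1 : k + j + 1 + 1 = k + j + 2 := rfl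
  have e2 : k + 1 + 1 = k + 2 := rfl
  rw [e1, e2] at a2 b2
  push_cast at a1 a2 b1 b2 hlt
  have hk0 : (0 : ℝ) ≤ k := Nat.cast_nonneg k
  have hj0 : (0 : ℝ) ≤ j := Nat.cast_nonneg j
  have hj1 : (1 : ℝ) ≤ j := by
    have : (0 : ℝ) < j := by linarith
    have : 0 < j := by exact_mod_cast this
    exact_mod_cast this
  generalize ((k + j).choose k : ℝ) = A at *
  generalize ((k + j + 1).choose (k + 1) : ℝ) = B at *
  generalize ((k + j + 2).choose (k + 2) : ℝ) = C at *
  generalize ((k + j + k).choose k : ℝ) = D at *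
  generalize ((k + j + 1 + (k + 1)).choose (k + 1) : ℝ) = E at *
  generalize ((k + j + 2 + (k + 2)).choose (k + 2) : ℝ) = G at *
  generalize (k : ℝ) = x at *
  generalize (j : ℝ) = y at *
  have h1 : Real.log A + Real.log C ≤ 2 * Real.log B +
      ((x + 1) * (x + y + 2) / ((x + y + 1) * (x + 2)) - 1) := by
    refine log_help pA pB pC (by positivity) ?_
    have hA' : A = B * (x + 1) / (x + y + 1) := by
      rw [eq_div_iff (by positivity)]; linarith
    have hC' : C = B * (x + y + 2) / (x + 2) := by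
      rw [eq_div_iff (by positivity)]; linarith
    rw [hA', hC']
    field_simp
  have h2 : Real.log D + Real.log G ≤ 2 * Real.log E +
      ((x + y + x + 4) * (x + y + x + 3) * (x + 1) * (x + y + 1) /
        ((x + y + x + 2) * (x + y + x + 1) * (x + 2) * (x + y + 2)) - 1) := by
    refine log_help pD pE pG (by positivity) ?_
    have hD' : D = E * ((x + 1) * (x + y + 1)) / ((x + y + x + 2) * (x + y + x + 1)) := by
      rw [eq_div_iff (by positivity)]; linarith
    have hG' : G = E * ((x + y + x + 4) * (x + y + x + 3)) / ((x + 2) * (x + y + 2)) := by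
      rw [eq_div_iff (by positivity)]; linarith
    rw [hD', hG']
    field_simp
  have h3 : (x + 1) * (x + y + 2) / ((x + y + 1) * (x + 2)) - 1 =
      - (y / ((x + 2) * (x + y + 1))) := by
    field_simp
    ring
  have h4 : (x + y + x + 4) * (x + y + x + 3) * (x + 1) * (x + y + 1) /
        ((x + y + x + 2) * (x + y + x + 1) * (x + 2) * (x + y + 2)) - 1 ≤
      1 / ((x + y + 1) * (x + y + 2)) := by
    rw [sub_le_iff_le_add, div_le_iff₀ (by positivity)]
    have h5 : (1 / ((x + y + 1) * (x + y + 2)) + 1) *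
        ((x + y + x + 2) * (x + y + x + 1) * (x + 2) * (x + y + 2)) =
        (1 + (x + y + 1) * (x + y + 2)) * ((x + y + x + 2) * (x + y + x + 1) * (x + 2)) /
          (x + y + 1) := by
      field_simp
    rw [h5, le_div_iff₀ (by positivity), ← sub_nonneg]
    have h10 : (1 + (x + y + 1) * (x + y + 2)) * ((x + y + x + 2) * (x + y + x + 1) * (x + 2)) -
        (x + y + x + 4) * (x + y + x + 3) * (x + 1) * (x + y + 1) * (x + y + 1) =
        y * (y - 1) + (3 * y ^ 3 + y ^ 4 + 4 * x + 3 * x * y ^ 2 + 3 * x * y ^ 3 + 6 * x ^ 2 +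
          2 * x ^ 2 * y ^ 2 + 2 * x ^ 3) := by ring
    rw [h10]
    have h11 : 0 ≤ y * (y - 1) := mul_nonneg hj0 (by linarith)
    have h12 : 0 ≤ 3 * y ^ 3 + y ^ 4 + 4 * x + 3 * x * y ^ 2 + 3 * x * y ^ 3 + 6 * x ^ 2 +
          2 * x ^ 2 * y ^ 2 + 2 * x ^ 3 := by positivity
    linarith
  rw [h3] at h1
  have h6 : l * (Real.log D + Real.log G) ≤ l * (2 * Real.log E +
      1 / ((x + y + 1) * (x + y + 2))) :=
    mul_le_mul_of_nonneg_left (h2.trans (by linarith)) hl
  have h7 : l * (1 / ((x + y + 1) * (x + y + 2))) < y / ((x + 2) * (x + y + 1)) := by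
    rw [mul_one_div, div_lt_div_iff₀ (by positivity) (by positivity)]
    have h8 : l < y := by linarith
    have h9 : l * (x + 2) < y * (x + y + 2) := by nlinarith
    nlinarith
  nlinarith


end Pool.Agent.H994.AP
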