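import Mathlib

/-!
# Generalized Apéry numbers: evaluation, cone lemma, Stieltjes quadratic forms
-/

set_option autoImplicit false

namespace Pool.Agent.H994.AP

/-- The generalized Apéry numbers `a_n(r,s) = ∑_{k ≤ n} C(n,k)^r C(n+k,k)^s`. -/
def a (r s n : ℕ) : ℕ := ∑ k ∈ Finset.range (n + 1), n.choose k ^ r * (n + k).choose k ^ s

/-- a fast binomial coefficient -/
def bin (n k : ℕ) : ℕ := n.descFactorial k / k.factorial

lemma bin_eq (n k : ℕ) : bin n k = n.choose k :=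
  (Nat.choose_eq_descFactorial_div_factorial n k).symm

/-- the list of the terms `(C(n,k), C(n+k,k))` -/
def terms (n : ℕ) : List (ℕ × ℕ) := (List.range (n + 1)).map (fun k => (bin n k, bin (n + k) k))

/-- `∑ p^r q^s` over a list -/
def S (L : List (ℕ × ℕ)) (r s : ℕ) : ℕ := (L.map (fun t => t.1 ^ r * t.2 ^ s)).sum

lemma S_terms (r s n : ℕ) : S (terms n) r s = a r s n := by
  unfold S terms a
  rw [List.map_map]
  have h : ∀ (m : ℕ) (f : ℕ → ℕ), ((List.range m).map f).sum = ∑ k ∈ Finset.range m, f k := by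
    intro m f
    induction m with
    | zero => simp
    | succ m ih => rw [List.range_succ, List.map_append, List.sum_append, ih, Finset.sum_range_succ]; simp
  rw [h]
  apply Finset.sum_congr rfl
  intro k _
  simp only [Function.comp, bin_eq]

/-- fast evaluation -/
def A (r s n : ℕ) : ℕ := S (terms n) r s

lemma A_eq (r s n : ℕ) : A r s n = a r s n := S_terms r s n

/-- the list of products of terms of `a_n` and `a_{n+2}` -/
def prodTerms (n : ℕ) : List (ℕ × ℕ) :=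
  (terms n).flatMap (fun t => (terms (n + 2)).map (fun u => (t.1 * u.1, t.2 * u.2)))

lemma S_cons (t : ℕ × ℕ) (L : List (ℕ × ℕ)) (r s : ℕ) :
    S (t :: L) r s = t.1 ^ r * t.2 ^ s + S L r s := by simp [S]

lemma S_append (L M : List (ℕ × ℕ)) (r s : ℕ) : S (L ++ M) r s = S L r s + S M r s := by
  simp [S]

lemma S_mul_map (t : ℕ × ℕ) (M : List (ℕ × ℕ)) (r s : ℕ) :
    S (M.map (fun u => (t.1 * u.1, t.2 * u.2))) r s = t.1 ^ r * t.2 ^ s * S M r s := by
  induction M with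
  | nil => simp [S]
  | cons u M ih =>
    rw [List.map_cons, S_cons, S_cons, ih]
    simp only [mul_pow]
    ring

lemma S_flatMap (L M : List (ℕ × ℕ)) (r s : ℕ) :
    S (L.flatMap (fun t => M.map (fun u => (t.1 * u.1, t.2 * u.2)))) r s = S L r s * S M r s := by
  induction L with
  | nil => simp [S]
  | cons t L ih =>
    rw [List.flatMap_cons, S_append, ih, S_mul_map, S_cons]
    ring

lemma S_prodTerms (r s n : ℕ) : S (prodTerms n) r s = a r s n * a r s (n + 2) := by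
  unfold prodTerms
  rw [S_flatMap, S_terms, S_terms]

lemma S_step (L : List (ℕ × ℕ)) (P Q r1 s1 r s : ℕ)
    (h : ∀ t ∈ L, t.1 ^ r1 * t.2 ^ s1 ≤ P ^ r1 * Q ^ s1) :
    S L (r + r1) (s + s1) ≤ S L r s * (P ^ r1 * Q ^ s1) := by
  induction L with
  | nil => simp [S]
  | cons t L ih =>
    have h1 := h t (by simp)
    have h2 := ih (fun u hu => h u (by simp [hu]))
    rw [S_cons, S_cons]
    have h3 : t.1 ^ (r + r1) * t.2 ^ (s + s1) = t.1 ^ r * t.2 ^ s * (t.1 ^ r1 * t.2 ^ s1) := by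
      rw [pow_add, pow_add]; ring
    rw [h3, add_mul]
    exact Nat.add_le_add (Nat.mul_le_mul_left _ h1) h2

lemma step (L : List (ℕ × ℕ)) (P Q r1 s1 r s : ℕ) (hP : 0 < P) (hQ : 0 < Q)
    (h : ∀ t ∈ L, t.1 ^ r1 * t.2 ^ s1 ≤ P ^ r1 * Q ^ s1) (hS : S L r s < P ^ r * Q ^ s) :
    S L (r + r1) (s + s1) < P ^ (r + r1) * Q ^ (s + s1) := by
  calc S L (r + r1) (s + s1) ≤ S L r s * (P ^ r1 * Q ^ s1) := S_step L P Q r1 s1 r s h
    _ < P ^ r * Q ^ s * (P ^ r1 * Q ^ s1) := by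
        apply Nat.mul_lt_mul_of_pos_right hS
        positivity
    _ = P ^ (r + r1) * Q ^ (s + s1) := by rw [pow_add, pow_add]; ring

/-- log-convexity fails somewhere -/
def Fail (r s : ℕ) : Prop := ∃ n, a r s n * a r s (n + 2) < a r s (n + 1) ^ 2

lemma fail_of_S (n k r s : ℕ) (hk : k ≤ n + 1)
    (h : S (prodTerms n) r s < (bin (n + 1) k ^ 2) ^ r * (bin (n + 1 + k) k ^ 2) ^ s) :
    Fail r s := by
  refine ⟨n, ?_⟩
  rw [S_prodTerms] at h
  refine lt_of_lt_of_le h ?_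
  have h1 : (n + 1).choose k ^ r * (n + 1 + k).choose k ^ s ≤ a r s (n + 1) := by
    unfold a
    exact Finset.single_le_sum (f := fun k => (n + 1).choose k ^ r * (n + 1 + k).choose k ^ s)
      (fun _ _ => Nat.zero_le _) (Finset.mem_range.mpr (by omega))
  calc (bin (n + 1) k ^ 2) ^ r * (bin (n + 1 + k) k ^ 2) ^ s
      = ((n + 1).choose k ^ r * (n + 1 + k).choose k ^ s) ^ 2 := by
        rw [bin_eq, bin_eq, mul_pow, ← pow_mul, ← pow_mul, ← pow_mul, ← pow_mul]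
        congr 2 <;> ring
    _ ≤ a r s (n + 1) ^ 2 := Nat.pow_le_pow_left h1 2

/-- the cone lemma -/
theorem useCone (n k r1 s1 r2 s2 x0 y0 : ℕ) (hk : k ≤ n + 1)
    (hP : 0 < bin (n + 1) k ^ 2) (hQ : 0 < bin (n + 1 + k) k ^ 2)
    (h1 : ∀ t ∈ prodTerms n, t.1 ^ r1 * t.2 ^ s1 ≤
      (bin (n + 1) k ^ 2) ^ r1 * (bin (n + 1 + k) k ^ 2) ^ s1)
    (h2 : ∀ t ∈ prodTerms n, t.1 ^ r2 * t.2 ^ s2 ≤
      (bin (n + 1) k ^ 2) ^ r2 * (bin (n + 1 + k) k ^ 2) ^ s2)
    (h0 : S (prodTerms n) (x0 * r1 + y0 * r2) (x0 * s1 + y0 * s2) <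
      (bin (n + 1) k ^ 2) ^ (x0 * r1 + y0 * r2) * (bin (n + 1 + k) k ^ 2) ^ (x0 * s1 + y0 * s2))
    (x y : ℕ) (hx : x0 ≤ x) (hy : y0 ≤ y) : Fail (x * r1 + y * r2) (x * s1 + y * s2) := by
  apply fail_of_S n k _ _ hk
  obtain ⟨i, rfl⟩ := Nat.exists_eq_add_of_le hx
  obtain ⟨j, rfl⟩ := Nat.exists_eq_add_of_le hy
  have hA : ∀ i, S (prodTerms n) (x0 * r1 + y0 * r2 + i * r1) (x0 * s1 + y0 * s2 + i * s1) <
      (bin (n + 1) k ^ 2) ^ (x0 * r1 + y0 * r2 + i * r1) *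
        (bin (n + 1 + k) k ^ 2) ^ (x0 * s1 + y0 * s2 + i * s1) := by
    intro i
    induction i with
    | zero => simpa using h0
    | succ i ih =>
      have := step _ _ _ r1 s1 _ _ hP hQ h1 ih
      have e1 : x0 * r1 + y0 * r2 + (i + 1) * r1 = x0 * r1 + y0 * r2 + i * r1 + r1 := by ring
      have e2 : x0 * s1 + y0 * s2 + (i + 1) * s1 = x0 * s1 + y0 * s2 + i * s1 + s1 := by ring
      rw [e1, e2]
      exact this
  have hB : ∀ j, S (prodTerms n) (x0 * r1 + y0 * r2 + i * r1 + j * r2)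
      (x0 * s1 + y0 * s2 + i * s1 + j * s2) <
      (bin (n + 1) k ^ 2) ^ (x0 * r1 + y0 * r2 + i * r1 + j * r2) *
        (bin (n + 1 + k) k ^ 2) ^ (x0 * s1 + y0 * s2 + i * s1 + j * s2) := by
    intro j
    induction j with
    | zero => simpa using hA i
    | succ j ih =>
      have := step _ _ _ r2 s2 _ _ hP hQ h2 ih
      have e1 : x0 * r1 + y0 * r2 + i * r1 + (j + 1) * r2
          = x0 * r1 + y0 * r2 + i * r1 + j * r2 + r2 := by ring
      have e2 : x0 * s1 + y0 * s2 + i * s1 + (j + 1) * s2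
          = x0 * s1 + y0 * s2 + i * s1 + j * s2 + s2 := by ring
      rw [e1, e2]
      exact this
  have e1 : (x0 + i) * r1 + (y0 + j) * r2 = x0 * r1 + y0 * r2 + i * r1 + j * r2 := by ring
  have e2 : (x0 + i) * s1 + (y0 + j) * s2 = x0 * s1 + y0 * s2 + i * s1 + j * s2 := by ring
  rw [e1, e2]
  exact hB j

end Pool.Agent.H994.AP
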