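import Pool.Agent.H994.AP.Moment

/-!
# Large Hankel certificates
-/

set_option autoImplicit false
set_option maxRecDepth 100000

open MeasureTheory

namespace Pool.Agent.H994.AP

/-- fast evaluation of the sum: fuel, index, `C(n,k)`, `C(n+k,k)` -/
def go (r s n : ℕ) : ℕ → ℕ → ℕ → ℕ → ℕ
  | 0, _, _, _ => 0
  | f + 1, k, c, d =>
    c ^ r * d ^ s + go r s n f (k + 1) (c * (n - k) / (k + 1)) (d * (n + k + 1) / (k + 1))

def fa (r s n : ℕ) : ℕ := go r s n (n + 1) 0 1 1

lemma choose_step1 (n k : ℕ) : n.choose k * (n - k) / (k + 1) = n.choose (k + 1) := by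
  rw [← Nat.choose_succ_right_eq, Nat.mul_div_cancel _ (Nat.succ_pos k)]

lemma choose_step2 (n k : ℕ) :
    (n + k).choose k * (n + k + 1) / (k + 1) = (n + (k + 1)).choose (k + 1) := by
  have h := Nat.add_one_mul_choose_eq (n + k) k
  have h2 : (n + k).choose k * (n + k + 1) = (n + (k + 1)).choose (k + 1) * (k + 1) := by
    have : n + (k + 1) = n + k + 1 := rfl
    rw [this, ← h, mul_comm]
  rw [h2, Nat.mul_div_cancel _ (Nat.succ_pos k)]

lemma go_eq (r s n f k : ℕ) :
    go r s n f k (n.choose k) ((n + k).choose k) =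
      ∑ i ∈ Finset.range f, n.choose (k + i) ^ r * (n + (k + i)).choose (k + i) ^ s := by
  induction f generalizing k with
  | zero => simp [go]
  | succ f ih =>
    rw [go, choose_step1, choose_step2, ih, Finset.sum_range_succ']
    rw [add_comm]
    congr 1
    apply Finset.sum_congr rfl
    intro i _
    have : k + (i + 1) = k + 1 + i := by ring
    rw [this]

lemma fa_eq (r s n : ℕ) : fa r s n = a r s n := by
  have h := go_eq r s n (n + 1) 0
  simp only [Nat.choose_zero_right, zero_add] at h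
  exact h

/-- `∑ v_j x (s+j)` -/
def dotx (x : ℕ → ℤ) : ℕ → List ℤ → ℤ
  | _, [] => 0
  | s, c :: v => c * x s + dotx x (s + 1) v

/-- `∑ w_i ∑ v_j x (s+i+j)` -/
def quadx (x : ℕ → ℤ) (v : List ℤ) : ℕ → List ℤ → ℤ
  | _, [] => 0
  | s, c :: w => c * dotx x s v + quadx x v (s + 1) w

/-- the polynomial with given coefficients -/
def pol : List ℤ → ℝ → ℝ
  | [], _ => 0
  | c :: v, t => (c : ℝ) + t * pol v t

lemma dot_int {μ : Measure ℝ} {x : ℕ → ℤ}
    (hx : ∀ n : ℕ, Integrable (fun t : ℝ => t ^ n) μ ∧ (x n : ℝ) = ∫ t, t ^ n ∂μ)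
    (v : List ℤ) (s : ℕ) :
    Integrable (fun t : ℝ => t ^ s * pol v t) μ ∧
      ((dotx x s v : ℤ) : ℝ) = ∫ t, t ^ s * pol v t ∂μ := by
  induction v generalizing s with
  | nil => simp [dotx, pol]
  | cons c v ih =>
    have h1 : (fun t : ℝ => t ^ s * pol (c :: v) t)
        = fun t => (c : ℝ) * t ^ s + t ^ (s + 1) * pol v t := by
      funext t; simp only [pol]; ring
    rw [h1]
    have h2 := ih (s + 1)
    have h3 := (hx s).1.const_mul (c : ℝ)
    refine ⟨h3.add h2.1, ?_⟩
    rw [integral_add h3 h2.1, integral_const_mul, ← h2.2, ← (hx s).2]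
    simp [dotx]

lemma quad_int {μ : Measure ℝ} {x : ℕ → ℤ}
    (hx : ∀ n : ℕ, Integrable (fun t : ℝ => t ^ n) μ ∧ (x n : ℝ) = ∫ t, t ^ n ∂μ)
    (v w : List ℤ) (s : ℕ) :
    Integrable (fun t : ℝ => t ^ s * pol w t * pol v t) μ ∧
      ((quadx x v s w : ℤ) : ℝ) = ∫ t, t ^ s * pol w t * pol v t ∂μ := by
  induction w generalizing s with
  | nil => simp [quadx, pol]
  | cons c w ih =>
    have h1 : (fun t : ℝ => t ^ s * pol (c :: w) t * pol v t)
        = fun t => (c : ℝ) * (t ^ s * pol v t) + t ^ (s + 1) * pol w t * pol v t := by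
      funext t; simp only [pol]; ring
    rw [h1]
    have h2 := ih (s + 1)
    have h3 := (dot_int hx v s)
    have h4 := h3.1.const_mul (c : ℝ)
    refine ⟨h4.add h2.1, ?_⟩
    rw [integral_add h4 h2.1, integral_const_mul, ← h2.2, ← h3.2]
    simp [quadx]

/-- values `x s, x (s+1), ...` -/
def vals (x : ℕ → ℤ) : ℕ → ℕ → List ℤ
  | _, 0 => []
  | s, N + 1 => x s :: vals x (s + 1) N

def dotl : List ℤ → List ℤ → ℤ
  | [], _ => 0
  | _ :: _, [] => 0
  | c :: v, y :: l => c * y + dotl v l

def quadl (v : List ℤ) : List ℤ → List ℤ → ℤ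
  | [], _ => 0
  | c :: w, l => c * dotl v l + quadl v w l.tail

lemma dotl_vals (x : ℕ → ℤ) (v : List ℤ) (s N : ℕ) (h : v.length ≤ N) :
    dotl v (vals x s N) = dotx x s v := by
  induction v generalizing s N with
  | nil => simp [dotl, dotx]
  | cons c v ih =>
    cases N with
    | zero => simp at h
    | succ N =>
      simp only [vals, dotl, dotx]
      rw [ih (s + 1) N (by simpa using h)]

lemma quadl_vals (x : ℕ → ℤ) (v w : List ℤ) (s N : ℕ) (h : v.length + w.length ≤ N + 1) :
    quadl v w (vals x s N) = quadx x v s w := by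
  induction w generalizing s N with
  | nil => simp [quadl, quadx]
  | cons c w ih =>
    simp only [quadl, quadx]
    rw [dotl_vals x v s N (by simp at h; omega)]
    cases N with
    | zero =>
      have h1 : w = [] := by
        have : w.length = 0 := by simp at h; omega
        exact List.length_eq_zero_iff.mp this
      subst h1
      simp [quadl, quadx]
    | succ N =>
      simp only [vals, List.tail_cons]
      rw [ih (s + 1) N (by simp at h; omega)]

/-- a negative quadratic form excludes the Stieltjes property -/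
theorem not_stieltjes_of_quad (r s sh N : ℕ) (v as : List ℤ)
    (h1 : vals (fun n => (fa r s n : ℤ)) sh N = as) (h2 : v.length + v.length ≤ N + 1)
    (h3 : quadl v v as < 0) : ¬ IsStieltjes (fun n => (a r s n : ℝ)) := by
  rintro ⟨μ, hμ, hx⟩
  have hx' : ∀ n : ℕ, Integrable (fun t : ℝ => t ^ n) μ ∧
      (((fun n => (a r s n : ℤ)) n : ℤ) : ℝ) = ∫ t, t ^ n ∂μ := by
    intro n
    refine ⟨(hx n).1, ?_⟩
    simpa using (hx n).2
  have h4 := (quad_int hx' v v sh).2
  have h5 : vals (fun n => (fa r s n : ℤ)) sh N = vals (fun n => (a r s n : ℤ)) sh N := by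
    simp only [fa_eq]
  rw [← h1, h5, quadl_vals _ _ _ _ _ h2] at h3
  have h6 : 0 ≤ ∫ t, t ^ sh * pol v t * pol v t ∂μ := by
    apply integral_nonneg_of_ae
    have h2 : ∀ᵐ t ∂μ, t ∉ Set.Iio (0 : ℝ) := by
      rw [ae_iff]
      have h3 : {a : ℝ | ¬ a ∉ Set.Iio (0 : ℝ)} = Set.Iio 0 := by
        ext t; simp
      rw [h3]
      exact hμ
    filter_upwards [h2] with t ht
    have ht0 : 0 ≤ t := by simpa using ht
    simp only [Pi.zero_apply]
    rw [mul_assoc]
    exact mul_nonneg (pow_nonneg ht0 _) (mul_self_nonneg _)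
  rw [← h4] at h6
  have h7 : (0 : ℤ) ≤ quadx (fun n => (a r s n : ℤ)) v sh v := by exact_mod_cast h6
  linarith

end Pool.Agent.H994.AP
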