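import Pool.Agent.H994.AP.Big

/-!
# The Hankel certificate for (1,2)
-/

set_option autoImplicit false
set_option maxRecDepth 100000

namespace Pool.Agent.H994.AP

def c12_v : List ℤ := [
  100373755939998,
  -775924661109673,
  1314670170560513,
  -950751724011046,
  370312729089125,
  -87028716465611,
  13116815162350,
  -1306840097171,
  86694201793,
  -3769143844,
  102400407,
  -1560029,
  10000]

def c12_a : List ℤ := [
  1,
  5,
  55,
  749,
  11251,
  178835,
  2949115,
  49906925,
  860905315,
  15071939255,
  266982872905,
  4774722189275,
  86070844191775,
  1561948324845095,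
  28507384046515555,
  522867506128197869,
  9631571375362268515,
  178094411589895650815,
  3304192479145474141741,
  61487420580006795749999,
  1147310054439368264752621,
  21460298038569915209597885,
  402303281700710751346492045,
  7557003072139605981578257499,
  142216452439487217855645948751]

theorem c12_vals : vals (fun n => (fa 1 2 n : ℤ)) 0 25 = c12_a := by decide +kernel

theorem c12_len : c12_v.length + c12_v.length ≤ 25 + 1 := by decide +kernel

theorem c12_quad : quadl c12_v c12_v c12_a < 0 := by decide +kernel

theorem c12_not : ¬ IsStieltjes (fun n => (a 1 2 n : ℝ)) :=
  not_stieltjes_of_quad 1 2 0 25 c12_v c12_a c12_vals c12_len c12_quad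

end Pool.Agent.H994.AP
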