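import Pool.Agent.H994.AP.Big

/-!
# The Hankel certificate for (1,3)
-/

set_option autoImplicit false
set_option maxRecDepth 100000

namespace Pool.Agent.H994.AP

def c13_v : List ℤ := [
  -192042815659603108539067280737837644866,
  636398279975365231351845561870232023593,
  -700132651821535958156373971034984959375,
  382569247927008896329896119907825284969,
  -123981827329247248868790496643359581240,
  26339108105624472096837289924254560631,
  -3908968803038928338646897123006371024,
  423151406612634553273446004782046655,
  -34443601968604872642842474505495071,
  2154402926341404618851173136462559,
  -105147998413923627415760811492001,
  4045629627948328489177120503988,
  -123441095028466105397778191471,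
  2992574007423329427678869072,
  -57511919779954917501426150,
  870067393292066054741098,
  -10227501275626858026547,
  91423682650165610729,
  -600119632752754677,
  2726090120028006,
  -7653057292615,
  10000000000]

def c13_a : List ℤ := [
  9,
  271,
  11193,
  535251,
  27854739,
  1531656211,
  87547358649,
  5149886133907,
  309721191497259,
  18957806551405701,
  1177134132932168739,
  73964787438524189871,
  4694347514292389411103,
  300499277330710307643771,
  19378727805024033594228153,
  1257802636907811605342461587,
  82105086821958642272471606763,
  5386659535999341368626172208349,
  354998913108050564002728230272443,
  23490606232791271299026882147621521,
  1560096577863420734108525890223602449,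
  103956717861401259372707625086096612481,
  6948170997011151543872181699664466311203,
  465687292376503695352834299958379204472751,
  31291527251756345449755058091469171549993639,
  2107567578101158292559033372151843801919143801,
  142259796406803604475192550899088360527220494319,
  9621894663870996507711547275326639384803168526727,
  652012147366764484920961360964250065469851537713239,
  44260115245842492224918578646409525820794190806262731,
  3009411715284233361170838875912002443272172109943651769,
  204935888508098096053687275436472811363603255176825101971,
  13975939679076280741068641576075504529286463606052715813803,
  954406675480141042265753814277731351329765313942943964266461,
  65259154514074029334327566312566991730159951612512393249223419,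
  4467595658570580681226406462013602525816376190350583206115067241,
  306197878232118543094693175140608246344529799636331564247474663849,
  21008745407385014964781126834936891216473091078980464405033709697257,
  1442923954005028815423322877994726569769795752911221598709203022803899,
  99199558952307530810243581864356445382325915118301076211354501964572497,
  6826188100818179885414344481217480266560434477681917589693955716628301913,
  470142708252806709669298036626674034735557817742450036419032337057037898487,
  32407548867007181231242865381447186525736005716043975488796925060153454721601]

theorem c13_vals : vals (fun n => (fa 1 3 n : ℤ)) 1 43 = c13_a := by decide +kernel

theorem c13_len : c13_v.length + c13_v.length ≤ 43 + 1 := by decide +kernel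

theorem c13_quad : quadl c13_v c13_v c13_a < 0 := by decide +kernel

theorem c13_not : ¬ IsStieltjes (fun n => (a 1 3 n : ℝ)) :=
  not_stieltjes_of_quad 1 3 1 43 c13_v c13_a c13_vals c13_len c13_quad

end Pool.Agent.H994.AP
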