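import Pool.Agent.H994.AP.Checks3

/-!
# Iterated log-convexity in the region `s ≤ 3 r`: finite checks
-/

set_option autoImplicit false
set_option maxRecDepth 100000

namespace Pool.Agent.H994.AP.Three

open Pool.Agent.H994.AP

/-- the operator `L` iterated, evaluated -/
def Lf (r s : ℕ) : ℕ → ℕ → ℤ
  | 0, n => (fa r s n : ℤ)
  | k + 1, n => Lf r s k n * Lf r s k (n + 2) - Lf r s k (n + 1) ^ 2

theorem Lf_eq (r s k n : ℕ) : Lf r s k n = (L^[k] (fun n => (a r s n : ℤ))) n := by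
  induction k generalizing n with
  | zero => simp [Lf, fa_eq]
  | succ k ih =>
    rw [Function.iterate_succ', Function.comp]
    simp only [Lf, L, ih]

/-- certificates for iterated log-convexity -/
def K : List (ℕ × ℕ × ℕ × ℕ) := [(3, 1, 3, 2), (4, 1, 2, 1), (3, 2, 3, 2), (4, 2, 2, 2), (5, 2, 2, 2), (6, 2, 2, 1), (3, 3, 4, 1), (4, 3, 2, 2), (5, 3, 2, 2), (6, 3, 2, 2), (3, 4, 5, 3), (4, 4, 2, 3), (5, 4, 2, 2), (4, 5, 3, 1), (5, 5, 2, 3), (4, 6, 3, 5), (5, 6, 2, 3), (6, 6, 2, 3), (4, 7, 3, 7), (5, 7, 2, 4), (6, 7, 2, 3), (7, 7, 2, 3), (4, 8, 4, 6), (5, 8, 2, 5), (6, 8, 2, 4), (4, 9, 5, 10), (5, 9, 3, 3), (6, 9, 2, 4), (7, 9, 2, 1), (5, 10, 3, 8), (6, 10, 2, 5), (7, 10, 2, 4), (5, 11, 3, 10), (6, 11, 2, 6), (7, 11, 2, 4), (8, 11, 2, 1), (5, 12, 3, 12), (6, 12, 2, 7), (7, 12, 2, 5), (8, 12, 2, 4), (5, 13, 4, 16), (6, 13, 3, 5),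 (7, 13, 2, 6), (8, 13, 2, 5), (5, 14, 4, 20), (6, 14, 3, 10), (7, 14, 2, 7), (8, 14, 2, 5), (5, 15, 5, 29), (6, 15, 3, 12), (7, 15, 2, 8), (8, 15, 2, 6), (9, 15, 2, 2), (6, 16, 3, 14), (7, 16, 2, 9), (8, 16, 2, 6), (9, 16, 2, 5), (6, 17, 3, 17), (7, 17, 2, 10), (8, 17, 2, 7), (9, 17, 2, 6), (10, 17, 2, 2), (6, 18, 4, 21), (7, 18, 3, 12), (8, 18, 2, 8), (9, 18, 2, 6), (10, 18, 2, 5), (7, 19, 3, 14), (8, 19, 2, 9), (9, 19, 2, 7), (10, 19, 2, 6), (7, 20, 3, 16), (8, 20, 2, 11), (9, 20, 2, 8), (10, 20, 2, 6), (7, 21, 3, 19), (8, 21, 2, 12), (9, 21, 2, 9), (10, 21, 2, 7), (8, 22, 2, 21), (9, 22, 2, 10), (10, 22, 2, 8), (11, 22, 2, 6), (8, 23, 2, 24), (9, 23, 2, 11), (10, 23, 2, 9), (11, 23, 2, 7), (8, 24, 3, 18), (9, 24, 2, 12), (10, 24, 2, 9), (11, 24, 2, 7), (9, 25, 2, 14), (10, 25, 2, 10), (11, 25, 2, 8), (9, 26, 2, 23), (10, 26,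 2, 12), (11, 26, 2, 9), (9, 27, 2, 25), (10, 27, 2, 13), (11, 27, 2, 10), (12, 27, 2, 8), (10, 28, 2, 14), (11, 28, 2, 11), (12, 28, 2, 9), (10, 29, 2, 15), (11, 29, 2, 12), (12, 29, 2, 10), (10, 30, 2, 24), (11, 30, 2, 13), (12, 30, 2, 11), (11, 31, 2, 14), (12, 31, 2, 11), (11, 32, 2, 15), (12, 32, 2, 12), (13, 32, 2, 10), (11, 33, 2, 17), (12, 33, 2, 13), (13, 33, 2, 11), (12, 34, 2, 14), (13, 34, 2, 12), (12, 35, 2, 15), (13, 35, 2, 13), (12, 36, 2, 17), (13, 36, 2, 14), (13, 37, 2, 14), (13, 38, 2, 15), (14, 38, 2, 13), (13, 39, 2, 16), (14, 39, 2, 14), (14, 40, 2, 15), (14, 41, 2, 16), (14, 42, 2, 16), (15, 44, 2, 16), (15, 45, 2, 16)]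

theorem K_check : ∀ p ∈ K, 1 ≤ p.2.2.1 ∧ Lf p.1 p.2.1 p.2.2.1 p.2.2.2 < 0 := by
  decide +kernel

/-- the pairs with `r ≥ 3`, `s ≤ 3 r` left open for infinite log-convexity -/
def X : List (ℕ × ℕ) := [(3, 5), (3, 6), (3, 7), (3, 8), (3, 9), (4, 10), (4, 11), (4, 12)]

theorem E_split' : ∀ p ∈ E, 3 ≤ p.1 → p ∉ X → ∃ q ∈ K, q.1 = p.1 ∧ q.2.1 = p.2 := by
  decide +kernel

theorem not_ilc_E (r s : ℕ) (hr : 3 ≤ r) (h : (r, s) ∈ E) (hX : (r, s) ∉ X) :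
    ¬ InfinitelyLogConvex (fun n => (a r s n : ℤ)) := by
  obtain ⟨q, hq, h2, h3⟩ := E_split' (r, s) h hr hX
  have h4 := K_check q hq
  simp only at h2 h3
  rw [h2, h3, Lf_eq] at h4
  intro hI
  have h5 := hI _ h4.1 q.2.2.2
  linarith [h4.2]

end Pool.Agent.H994.AP.Three
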