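import Pool.Agent.H994.AP.Basic

/-!
# The region `s ≤ 2 r`: log-convexity fails outside a finite explicit list
-/

set_option autoImplicit false
set_option maxRecDepth 100000

namespace Pool.Agent.H994.AP

/-- the finitely many points not reached by the cone lemma -/
def B : List (ℕ × ℕ) := [(0, 0), (1, 0), (2, 0), (3, 0), (4, 0), (1, 1), (2, 1), (3, 1), (4, 1), (5, 1), (1, 2), (2, 2), (3, 2), (4, 2), (5, 2), (6, 2), (2, 3), (3, 3), (4, 3), (5, 3), (6, 3), (7, 3), (8, 3), (2, 4), (3, 4), (4, 4), (5, 4), (6, 4), (8, 4), (3, 5), (4, 5), (5, 5), (6, 5), (3, 6), (4, 6), (5, 6), (6, 6), (4, 7), (5, 7), (6, 7), (7, 7), (4, 8), (5, 8), (6, 8), (7, 8), (8, 8), (5, 9), (6, 9), (7, 9), (9, 9), (5, 10), (6, 10), (7, 10), (10, 10), (6, 11), (7, 11), (8, 11), (6, 12), (7, 12), (8, 12), (7, 13), (8, 13), (9, 13), (7, 14), (8, 14), (9, 14), (10, 14), (8, 15), (9, 15), (10, 15), (8, 16), (9, 16), (11, 16), (9, 17), (10, 17), (9, 18), (10,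 18), (12, 18), (10, 19), (11, 19), (10, 20), (11, 20), (12, 20), (11, 21), (14, 21), (11, 22), (12, 23), (12, 24), (13, 26), (14, 28), (15, 30)]

theorem cone0_use (x0 y0 : ℕ)
    (h0 : S (prodTerms 5) (x0 * 1 + y0 * 3) (x0 * 2 + y0 * 5) <
      (bin (5 + 1) 5 ^ 2) ^ (x0 * 1 + y0 * 3) * (bin (5 + 1 + 5) 5 ^ 2) ^ (x0 * 2 + y0 * 5))
    (x y : ℕ) (hx : x0 ≤ x) (hy : y0 ≤ y) : Fail (x * 1 + y * 3) (x * 2 + y * 5) :=
  useCone 5 5 1 2 3 5 x0 y0 (by norm_num) (by decide +kernel) (by decide +kernel)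
    (by decide +kernel) (by decide +kernel) h0 x y hx hy

theorem cone0_b0 (x y : ℕ) (hx : 16 ≤ x) (hy : 0 ≤ y) :
    Fail (x * 1 + y * 3) (x * 2 + y * 5) :=
  cone0_use 16 0 (by decide +kernel) x y hx hy

theorem cone0_b1 (x y : ℕ) (hx : 10 ≤ x) (hy : 1 ≤ y) :
    Fail (x * 1 + y * 3) (x * 2 + y * 5) :=
  cone0_use 10 1 (by decide +kernel) x y hx hy

theorem cone0_b2 (x y : ℕ) (hx : 6 ≤ x) (hy : 2 ≤ y) :
    Fail (x * 1 + y * 3) (x * 2 + y * 5) :=
  cone0_use 6 2 (by decide +kernel) x y hx hy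

theorem cone0_b3 (x y : ℕ) (hx : 3 ≤ x) (hy : 3 ≤ y) :
    Fail (x * 1 + y * 3) (x * 2 + y * 5) :=
  cone0_use 3 3 (by decide +kernel) x y hx hy

theorem cone0_b4 (x y : ℕ) (hx : 1 ≤ x) (hy : 4 ≤ y) :
    Fail (x * 1 + y * 3) (x * 2 + y * 5) :=
  cone0_use 1 4 (by decide +kernel) x y hx hy

theorem cone0_b5 (x y : ℕ) (hx : 0 ≤ x) (hy : 5 ≤ y) :
    Fail (x * 1 + y * 3) (x * 2 + y * 5) :=
  cone0_use 0 5 (by decide +kernel) x y hx hy

theorem cone0 (x y : ℕ) : Fail (x * 1 + y * 3) (x * 2 + y * 5) ∨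
    (x * 1 + y * 3, x * 2 + y * 5) ∈ B := by
  by_cases hy0 : y = 0
  · by_cases hx : 16 ≤ x
    · exact Or.inl (cone0_b0 x y hx (by omega))
    · right
      subst hy0
      have hx2 : x < 16 := by omega
      interval_cases x <;> decide
  by_cases hy1 : y = 1
  · by_cases hx : 10 ≤ x
    · exact Or.inl (cone0_b1 x y hx (by omega))
    · right
      subst hy1
      have hx2 : x < 10 := by omega
      interval_cases x <;> decide
  by_cases hy2 : y = 2
  · by_cases hx : 6 ≤ x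
    · exact Or.inl (cone0_b2 x y hx (by omega))
    · right
      subst hy2
      have hx2 : x < 6 := by omega
      interval_cases x <;> decide
  by_cases hy3 : y = 3
  · by_cases hx : 3 ≤ x
    · exact Or.inl (cone0_b3 x y hx (by omega))
    · right
      subst hy3
      have hx2 : x < 3 := by omega
      interval_cases x <;> decide
  by_cases hy4 : y = 4
  · by_cases hx : 1 ≤ x
    · exact Or.inl (cone0_b4 x y hx (by omega))
    · right
      subst hy4
      have hx2 : x < 1 := by omega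
      interval_cases x <;> decide
  exact Or.inl (cone0_b5 x y (Nat.zero_le _) (by omega))

theorem cone1_use (x0 y0 : ℕ)
    (h0 : S (prodTerms 4) (x0 * 3 + y0 * 2) (x0 * 5 + y0 * 3) <
      (bin (4 + 1) 4 ^ 2) ^ (x0 * 3 + y0 * 2) * (bin (4 + 1 + 4) 4 ^ 2) ^ (x0 * 5 + y0 * 3))
    (x y : ℕ) (hx : x0 ≤ x) (hy : y0 ≤ y) : Fail (x * 3 + y * 2) (x * 5 + y * 3) :=
  useCone 4 4 3 5 2 3 x0 y0 (by norm_num) (by decide +kernel) (by decide +kernel)
    (by decide +kernel) (by decide +kernel) h0 x y hx hy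

theorem cone1_b0 (x y : ℕ) (hx : 4 ≤ x) (hy : 0 ≤ y) :
    Fail (x * 3 + y * 2) (x * 5 + y * 3) :=
  cone1_use 4 0 (by decide +kernel) x y hx hy

theorem cone1_b1 (x y : ℕ) (hx : 3 ≤ x) (hy : 1 ≤ y) :
    Fail (x * 3 + y * 2) (x * 5 + y * 3) :=
  cone1_use 3 1 (by decide +kernel) x y hx hy

theorem cone1_b2 (x y : ℕ) (hx : 2 ≤ x) (hy : 2 ≤ y) :
    Fail (x * 3 + y * 2) (x * 5 + y * 3) :=
  cone1_use 2 2 (by decide +kernel) x y hx hy

theorem cone1_b3 (x y : ℕ) (hx : 2 ≤ x) (hy : 3 ≤ y) :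
    Fail (x * 3 + y * 2) (x * 5 + y * 3) :=
  cone1_use 2 3 (by decide +kernel) x y hx hy

theorem cone1_b4 (x y : ℕ) (hx : 1 ≤ x) (hy : 4 ≤ y) :
    Fail (x * 3 + y * 2) (x * 5 + y * 3) :=
  cone1_use 1 4 (by decide +kernel) x y hx hy

theorem cone1_b5 (x y : ℕ) (hx : 0 ≤ x) (hy : 5 ≤ y) :
    Fail (x * 3 + y * 2) (x * 5 + y * 3) :=
  cone1_use 0 5 (by decide +kernel) x y hx hy

theorem cone1 (x y : ℕ) : Fail (x * 3 + y * 2) (x * 5 + y * 3) ∨
    (x * 3 + y * 2, x * 5 + y * 3) ∈ B := by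
  by_cases hy0 : y = 0
  · by_cases hx : 4 ≤ x
    · exact Or.inl (cone1_b0 x y hx (by omega))
    · right
      subst hy0
      have hx2 : x < 4 := by omega
      interval_cases x <;> decide
  by_cases hy1 : y = 1
  · by_cases hx : 3 ≤ x
    · exact Or.inl (cone1_b1 x y hx (by omega))
    · right
      subst hy1
      have hx2 : x < 3 := by omega
      interval_cases x <;> decide
  by_cases hy2 : y = 2
  · by_cases hx : 2 ≤ x
    · exact Or.inl (cone1_b2 x y hx (by omega))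
    · right
      subst hy2
      have hx2 : x < 2 := by omega
      interval_cases x <;> decide
  by_cases hy3 : y = 3
  · by_cases hx : 2 ≤ x
    · exact Or.inl (cone1_b3 x y hx (by omega))
    · right
      subst hy3
      have hx2 : x < 2 := by omega
      interval_cases x <;> decide
  by_cases hy4 : y = 4
  · by_cases hx : 1 ≤ x
    · exact Or.inl (cone1_b4 x y hx (by omega))
    · right
      subst hy4
      have hx2 : x < 1 := by omega
      interval_cases x <;> decide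
  exact Or.inl (cone1_b5 x y (Nat.zero_le _) (by omega))

theorem cone2_use (x0 y0 : ℕ)
    (h0 : S (prodTerms 3) (x0 * 2 + y0 * 1) (x0 * 3 + y0 * 1) <
      (bin (3 + 1) 3 ^ 2) ^ (x0 * 2 + y0 * 1) * (bin (3 + 1 + 3) 3 ^ 2) ^ (x0 * 3 + y0 * 1))
    (x y : ℕ) (hx : x0 ≤ x) (hy : y0 ≤ y) : Fail (x * 2 + y * 1) (x * 3 + y * 1) :=
  useCone 3 3 2 3 1 1 x0 y0 (by norm_num) (by decide +kernel) (by decide +kernel)
    (by decide +kernel) (by decide +kernel) h0 x y hx hy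

theorem cone2_b0 (x y : ℕ) (hx : 8 ≤ x) (hy : 0 ≤ y) :
    Fail (x * 2 + y * 1) (x * 3 + y * 1) :=
  cone2_use 8 0 (by decide +kernel) x y hx hy

theorem cone2_b1 (x y : ℕ) (hx : 6 ≤ x) (hy : 1 ≤ y) :
    Fail (x * 2 + y * 1) (x * 3 + y * 1) :=
  cone2_use 6 1 (by decide +kernel) x y hx hy

theorem cone2_b2 (x y : ℕ) (hx : 5 ≤ x) (hy : 2 ≤ y) :
    Fail (x * 2 + y * 1) (x * 3 + y * 1) :=
  cone2_use 5 2 (by decide +kernel) x y hx hy

theorem cone2_b3 (x y : ℕ) (hx : 3 ≤ x) (hy : 3 ≤ y) :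
    Fail (x * 2 + y * 1) (x * 3 + y * 1) :=
  cone2_use 3 3 (by decide +kernel) x y hx hy

theorem cone2_b4 (x y : ℕ) (hx : 2 ≤ x) (hy : 4 ≤ y) :
    Fail (x * 2 + y * 1) (x * 3 + y * 1) :=
  cone2_use 2 4 (by decide +kernel) x y hx hy

theorem cone2_b5 (x y : ℕ) (hx : 2 ≤ x) (hy : 5 ≤ y) :
    Fail (x * 2 + y * 1) (x * 3 + y * 1) :=
  cone2_use 2 5 (by decide +kernel) x y hx hy

theorem cone2_b6 (x y : ℕ) (hx : 1 ≤ x) (hy : 6 ≤ y) :
    Fail (x * 2 + y * 1) (x * 3 + y * 1) :=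
  cone2_use 1 6 (by decide +kernel) x y hx hy

theorem cone2_b7 (x y : ℕ) (hx : 1 ≤ x) (hy : 7 ≤ y) :
    Fail (x * 2 + y * 1) (x * 3 + y * 1) :=
  cone2_use 1 7 (by decide +kernel) x y hx hy

theorem cone2_b8 (x y : ℕ) (hx : 1 ≤ x) (hy : 8 ≤ y) :
    Fail (x * 2 + y * 1) (x * 3 + y * 1) :=
  cone2_use 1 8 (by decide +kernel) x y hx hy

theorem cone2_b9 (x y : ℕ) (hx : 0 ≤ x) (hy : 9 ≤ y) :
    Fail (x * 2 + y * 1) (x * 3 + y * 1) :=
  cone2_use 0 9 (by decide +kernel) x y hx hy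

theorem cone2 (x y : ℕ) : Fail (x * 2 + y * 1) (x * 3 + y * 1) ∨
    (x * 2 + y * 1, x * 3 + y * 1) ∈ B := by
  by_cases hy0 : y = 0
  · by_cases hx : 8 ≤ x
    · exact Or.inl (cone2_b0 x y hx (by omega))
    · right
      subst hy0
      have hx2 : x < 8 := by omega
      interval_cases x <;> decide
  by_cases hy1 : y = 1
  · by_cases hx : 6 ≤ x
    · exact Or.inl (cone2_b1 x y hx (by omega))
    · right
      subst hy1
      have hx2 : x < 6 := by omega
      interval_cases x <;> decide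
  by_cases hy2 : y = 2
  · by_cases hx : 5 ≤ x
    · exact Or.inl (cone2_b2 x y hx (by omega))
    · right
      subst hy2
      have hx2 : x < 5 := by omega
      interval_cases x <;> decide
  by_cases hy3 : y = 3
  · by_cases hx : 3 ≤ x
    · exact Or.inl (cone2_b3 x y hx (by omega))
    · right
      subst hy3
      have hx2 : x < 3 := by omega
      interval_cases x <;> decide
  by_cases hy4 : y = 4
  · by_cases hx : 2 ≤ x
    · exact Or.inl (cone2_b4 x y hx (by omega))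
    · right
      subst hy4
      have hx2 : x < 2 := by omega
      interval_cases x <;> decide
  by_cases hy5 : y = 5
  · by_cases hx : 2 ≤ x
    · exact Or.inl (cone2_b5 x y hx (by omega))
    · right
      subst hy5
      have hx2 : x < 2 := by omega
      interval_cases x <;> decide
  by_cases hy6 : y = 6
  · by_cases hx : 1 ≤ x
    · exact Or.inl (cone2_b6 x y hx (by omega))
    · right
      subst hy6
      have hx2 : x < 1 := by omega
      interval_cases x <;> decide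
  by_cases hy7 : y = 7
  · by_cases hx : 1 ≤ x
    · exact Or.inl (cone2_b7 x y hx (by omega))
    · right
      subst hy7
      have hx2 : x < 1 := by omega
      interval_cases x <;> decide
  by_cases hy8 : y = 8
  · by_cases hx : 1 ≤ x
    · exact Or.inl (cone2_b8 x y hx (by omega))
    · right
      subst hy8
      have hx2 : x < 1 := by omega
      interval_cases x <;> decide
  exact Or.inl (cone2_b9 x y (Nat.zero_le _) (by omega))

theorem cone3_use (x0 y0 : ℕ)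
    (h0 : S (prodTerms 2) (x0 * 1 + y0 * 2) (x0 * 1 + y0 * 1) <
      (bin (2 + 1) 2 ^ 2) ^ (x0 * 1 + y0 * 2) * (bin (2 + 1 + 2) 2 ^ 2) ^ (x0 * 1 + y0 * 1))
    (x y : ℕ) (hx : x0 ≤ x) (hy : y0 ≤ y) : Fail (x * 1 + y * 2) (x * 1 + y * 1) :=
  useCone 2 2 1 1 2 1 x0 y0 (by norm_num) (by decide +kernel) (by decide +kernel)
    (by decide +kernel) (by decide +kernel) h0 x y hx hy

theorem cone3_b0 (x y : ℕ) (hx : 11 ≤ x) (hy : 0 ≤ y) :
    Fail (x * 1 + y * 2) (x * 1 + y * 1) :=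
  cone3_use 11 0 (by decide +kernel) x y hx hy

theorem cone3_b1 (x y : ℕ) (hx : 5 ≤ x) (hy : 1 ≤ y) :
    Fail (x * 1 + y * 2) (x * 1 + y * 1) :=
  cone3_use 5 1 (by decide +kernel) x y hx hy

theorem cone3_b2 (x y : ℕ) (hx : 3 ≤ x) (hy : 2 ≤ y) :
    Fail (x * 1 + y * 2) (x * 1 + y * 1) :=
  cone3_use 3 2 (by decide +kernel) x y hx hy

theorem cone3_b3 (x y : ℕ) (hx : 1 ≤ x) (hy : 3 ≤ y) :
    Fail (x * 1 + y * 2) (x * 1 + y * 1) :=
  cone3_use 1 3 (by decide +kernel) x y hx hy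

theorem cone3_b4 (x y : ℕ) (hx : 0 ≤ x) (hy : 4 ≤ y) :
    Fail (x * 1 + y * 2) (x * 1 + y * 1) :=
  cone3_use 0 4 (by decide +kernel) x y hx hy

theorem cone3 (x y : ℕ) : Fail (x * 1 + y * 2) (x * 1 + y * 1) ∨
    (x * 1 + y * 2, x * 1 + y * 1) ∈ B := by
  by_cases hy0 : y = 0
  · by_cases hx : 11 ≤ x
    · exact Or.inl (cone3_b0 x y hx (by omega))
    · right
      subst hy0
      have hx2 : x < 11 := by omega
      interval_cases x <;> decide
  by_cases hy1 : y = 1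
  · by_cases hx : 5 ≤ x
    · exact Or.inl (cone3_b1 x y hx (by omega))
    · right
      subst hy1
      have hx2 : x < 5 := by omega
      interval_cases x <;> decide
  by_cases hy2 : y = 2
  · by_cases hx : 3 ≤ x
    · exact Or.inl (cone3_b2 x y hx (by omega))
    · right
      subst hy2
      have hx2 : x < 3 := by omega
      interval_cases x <;> decide
  by_cases hy3 : y = 3
  · by_cases hx : 1 ≤ x
    · exact Or.inl (cone3_b3 x y hx (by omega))
    · right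
      subst hy3
      have hx2 : x < 1 := by omega
      interval_cases x <;> decide
  exact Or.inl (cone3_b4 x y (Nat.zero_le _) (by omega))

theorem cone4_use (x0 y0 : ℕ)
    (h0 : S (prodTerms 4) (x0 * 2 + y0 * 3) (x0 * 1 + y0 * 1) <
      (bin (4 + 1) 3 ^ 2) ^ (x0 * 2 + y0 * 3) * (bin (4 + 1 + 3) 3 ^ 2) ^ (x0 * 1 + y0 * 1))
    (x y : ℕ) (hx : x0 ≤ x) (hy : y0 ≤ y) : Fail (x * 2 + y * 3) (x * 1 + y * 1) :=
  useCone 4 3 2 1 3 1 x0 y0 (by norm_num) (by decide +kernel) (by decide +kernel)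
    (by decide +kernel) (by decide +kernel) h0 x y hx hy

theorem cone4_b0 (x y : ℕ) (hx : 5 ≤ x) (hy : 0 ≤ y) :
    Fail (x * 2 + y * 3) (x * 1 + y * 1) :=
  cone4_use 5 0 (by decide +kernel) x y hx hy

theorem cone4_b1 (x y : ℕ) (hx : 3 ≤ x) (hy : 1 ≤ y) :
    Fail (x * 2 + y * 3) (x * 1 + y * 1) :=
  cone4_use 3 1 (by decide +kernel) x y hx hy

theorem cone4_b2 (x y : ℕ) (hx : 2 ≤ x) (hy : 2 ≤ y) :
    Fail (x * 2 + y * 3) (x * 1 + y * 1) :=
  cone4_use 2 2 (by decide +kernel) x y hx hy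

theorem cone4_b3 (x y : ℕ) (hx : 0 ≤ x) (hy : 3 ≤ y) :
    Fail (x * 2 + y * 3) (x * 1 + y * 1) :=
  cone4_use 0 3 (by decide +kernel) x y hx hy

theorem cone4 (x y : ℕ) : Fail (x * 2 + y * 3) (x * 1 + y * 1) ∨
    (x * 2 + y * 3, x * 1 + y * 1) ∈ B := by
  by_cases hy0 : y = 0
  · by_cases hx : 5 ≤ x
    · exact Or.inl (cone4_b0 x y hx (by omega))
    · right
      subst hy0
      have hx2 : x < 5 := by omega
      interval_cases x <;> decide
  by_cases hy1 : y = 1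
  · by_cases hx : 3 ≤ x
    · exact Or.inl (cone4_b1 x y hx (by omega))
    · right
      subst hy1
      have hx2 : x < 3 := by omega
      interval_cases x <;> decide
  by_cases hy2 : y = 2
  · by_cases hx : 2 ≤ x
    · exact Or.inl (cone4_b2 x y hx (by omega))
    · right
      subst hy2
      have hx2 : x < 2 := by omega
      interval_cases x <;> decide
  exact Or.inl (cone4_b3 x y (Nat.zero_le _) (by omega))

theorem cone5_use (x0 y0 : ℕ)
    (h0 : S (prodTerms 1) (x0 * 3 + y0 * 1) (x0 * 1 + y0 * 0) <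
      (bin (1 + 1) 1 ^ 2) ^ (x0 * 3 + y0 * 1) * (bin (1 + 1 + 1) 1 ^ 2) ^ (x0 * 1 + y0 * 0))
    (x y : ℕ) (hx : x0 ≤ x) (hy : y0 ≤ y) : Fail (x * 3 + y * 1) (x * 1 + y * 0) :=
  useCone 1 1 3 1 1 0 x0 y0 (by norm_num) (by decide +kernel) (by decide +kernel)
    (by decide +kernel) (by decide +kernel) h0 x y hx hy

theorem cone5_b0 (x y : ℕ) (hx : 3 ≤ x) (hy : 0 ≤ y) :
    Fail (x * 3 + y * 1) (x * 1 + y * 0) :=
  cone5_use 3 0 (by decide +kernel) x y hx hy

theorem cone5_b1 (x y : ℕ) (hx : 2 ≤ x) (hy : 1 ≤ y) :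
    Fail (x * 3 + y * 1) (x * 1 + y * 0) :=
  cone5_use 2 1 (by decide +kernel) x y hx hy

theorem cone5_b2 (x y : ℕ) (hx : 2 ≤ x) (hy : 2 ≤ y) :
    Fail (x * 3 + y * 1) (x * 1 + y * 0) :=
  cone5_use 2 2 (by decide +kernel) x y hx hy

theorem cone5_b3 (x y : ℕ) (hx : 1 ≤ x) (hy : 3 ≤ y) :
    Fail (x * 3 + y * 1) (x * 1 + y * 0) :=
  cone5_use 1 3 (by decide +kernel) x y hx hy

theorem cone5_b4 (x y : ℕ) (hx : 1 ≤ x) (hy : 4 ≤ y) :
    Fail (x * 3 + y * 1) (x * 1 + y * 0) :=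
  cone5_use 1 4 (by decide +kernel) x y hx hy

theorem cone5_b5 (x y : ℕ) (hx : 0 ≤ x) (hy : 5 ≤ y) :
    Fail (x * 3 + y * 1) (x * 1 + y * 0) :=
  cone5_use 0 5 (by decide +kernel) x y hx hy

theorem cone5 (x y : ℕ) : Fail (x * 3 + y * 1) (x * 1 + y * 0) ∨
    (x * 3 + y * 1, x * 1 + y * 0) ∈ B := by
  by_cases hy0 : y = 0
  · by_cases hx : 3 ≤ x
    · exact Or.inl (cone5_b0 x y hx (by omega))
    · right
      subst hy0
      have hx2 : x < 3 := by omega
      interval_cases x <;> decide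
  by_cases hy1 : y = 1
  · by_cases hx : 2 ≤ x
    · exact Or.inl (cone5_b1 x y hx (by omega))
    · right
      subst hy1
      have hx2 : x < 2 := by omega
      interval_cases x <;> decide
  by_cases hy2 : y = 2
  · by_cases hx : 2 ≤ x
    · exact Or.inl (cone5_b2 x y hx (by omega))
    · right
      subst hy2
      have hx2 : x < 2 := by omega
      interval_cases x <;> decide
  by_cases hy3 : y = 3
  · by_cases hx : 1 ≤ x
    · exact Or.inl (cone5_b3 x y hx (by omega))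
    · right
      subst hy3
      have hx2 : x < 1 := by omega
      interval_cases x <;> decide
  by_cases hy4 : y = 4
  · by_cases hx : 1 ≤ x
    · exact Or.inl (cone5_b4 x y hx (by omega))
    · right
      subst hy4
      have hx2 : x < 1 := by omega
      interval_cases x <;> decide
  exact Or.inl (cone5_b5 x y (Nat.zero_le _) (by omega))

/-- in the region `s ≤ 2 r` log-convexity fails, up to finitely many points -/
theorem region (r s : ℕ) (h : s ≤ 2 * r) : Fail r s ∨ (r, s) ∈ B := by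
  by_cases c0 : 5 * r ≤ 3 * s
  · have h1 := cone0 (3 * s - 5 * r) (2 * r - 1 * s)
    have e1 : (3 * s - 5 * r) * 1 + (2 * r - 1 * s) * 3 = r := by omega
    have e2 : (3 * s - 5 * r) * 2 + (2 * r - 1 * s) * 5 = s := by omega
    rw [e1, e2] at h1
    exact h1
  by_cases c1 : 3 * r ≤ 2 * s
  · have h1 := cone1 (2 * s - 3 * r) (5 * r - 3 * s)
    have e1 : (2 * s - 3 * r) * 3 + (5 * r - 3 * s) * 2 = r := by omega
    have e2 : (2 * s - 3 * r) * 5 + (5 * r - 3 * s) * 3 = s := by omega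
    rw [e1, e2] at h1
    exact h1
  by_cases c2 : 1 * r ≤ 1 * s
  · have h1 := cone2 (1 * s - 1 * r) (3 * r - 2 * s)
    have e1 : (1 * s - 1 * r) * 2 + (3 * r - 2 * s) * 1 = r := by omega
    have e2 : (1 * s - 1 * r) * 3 + (3 * r - 2 * s) * 1 = s := by omega
    rw [e1, e2] at h1
    exact h1
  by_cases c3 : 1 * r ≤ 2 * s
  · have h1 := cone3 (2 * s - 1 * r) (1 * r - 1 * s)
    have e1 : (2 * s - 1 * r) * 1 + (1 * r - 1 * s) * 2 = r := by omega
    have e2 : (2 * s - 1 * r) * 1 + (1 * r - 1 * s) * 1 = s := by omega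
    rw [e1, e2] at h1
    exact h1
  by_cases c4 : 1 * r ≤ 3 * s
  · have h1 := cone4 (3 * s - 1 * r) (1 * r - 2 * s)
    have e1 : (3 * s - 1 * r) * 2 + (1 * r - 2 * s) * 3 = r := by omega
    have e2 : (3 * s - 1 * r) * 1 + (1 * r - 2 * s) * 1 = s := by omega
    rw [e1, e2] at h1
    exact h1
  have c5 : 0 * r ≤ 1 * s ∨ True := Or.inr trivial
  have h1 := cone5 (1 * s - 0 * r) (1 * r - 3 * s)
  have e1 : (1 * s - 0 * r) * 3 + (1 * r - 3 * s) * 1 = r := by omega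
  have e2 : (1 * s - 0 * r) * 1 + (1 * r - 3 * s) * 0 = s := by omega
  rw [e1, e2] at h1
  exact h1

end Pool.Agent.H994.AP
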