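import Pool.Agent.H994.AP.Basic

/-!
# The region `s ≤ 3 r`: log-convexity fails outside a finite explicit list
-/

set_option autoImplicit false
set_option maxRecDepth 100000

namespace Pool.Agent.H994.AP.Three

open Pool.Agent.H994.AP

/-- the finitely many points not reached by the cone lemma -/
def B : List (ℕ × ℕ) := [(0, 0), (1, 0), (2, 0), (3, 0), (4, 0), (1, 1), (2, 1), (3, 1), (4, 1), (5, 1), (1, 2), (2, 2), (3, 2), (4, 2), (5, 2), (6, 2), (1, 3), (2, 3), (3, 3), (4, 3), (5, 3), (6, 3), (7, 3), (8, 3), (2, 4), (3, 4), (4, 4), (5, 4), (6, 4), (8, 4), (2, 5), (3, 5), (4, 5), (5, 5), (6, 5), (2, 6), (3, 6), (4, 6), (5, 6), (6, 6), (3, 7), (4, 7), (5, 7), (6, 7), (7, 7), (3, 8), (4, 8), (5, 8), (6, 8), (7, 8), (8, 8), (3, 9), (4, 9), (5, 9), (6, 9), (7, 9), (9, 9), (4, 10), (5, 10), (6, 10), (7, 10), (10, 10), (4, 11), (5, 11), (6, 11), (7, 11), (8, 11), (4, 12), (5, 12), (6, 12), (7, 12), (8,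 12), (5, 13), (6, 13), (7, 13), (8, 13), (9, 13), (5, 14), (6, 14), (7, 14), (8, 14), (9, 14), (10, 14), (5, 15), (6, 15), (7, 15), (8, 15), (9, 15), (10, 15), (6, 16), (7, 16), (8, 16), (9, 16), (11, 16), (6, 17), (7, 17), (8, 17), (9, 17), (10, 17), (6, 18), (7, 18), (8, 18), (9, 18), (10, 18), (12, 18), (7, 19), (8, 19), (9, 19), (10, 19), (11, 19), (7, 20), (8, 20), (9, 20), (10, 20), (11, 20), (12, 20), (7, 21), (8, 21), (9, 21), (10, 21), (11, 21), (14, 21), (8, 22), (9, 22), (10, 22), (11, 22), (8, 23), (9, 23), (10, 23), (11, 23), (12, 23), (8, 24), (9, 24), (10, 24), (11, 24), (12, 24), (9, 25), (10, 25), (11, 25), (12, 25), (9, 26), (10, 26), (11, 26), (12, 26), (13, 26), (9, 27), (10, 27), (11, 27), (12, 27), (13, 27), (10, 28), (11, 28), (12, 28), (13, 28), (14, 28), (10, 29), (11, 29), (12, 29), (13, 29), (14, 29), (10, 30), (11, 30), (12, 30), (13, 30), (14, 30), (15, 30), (11, 31),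 (12, 31), (13, 31), (14, 31), (15, 31), (11, 32), (12, 32), (13, 32), (14, 32), (15, 32), (16, 32), (11, 33), (12, 33), (13, 33), (14, 33), (15, 33), (16, 33), (12, 34), (13, 34), (14, 34), (15, 34), (17, 34), (12, 35), (13, 35), (14, 35), (15, 35), (17, 35), (12, 36), (13, 36), (14, 36), (15, 36), (16, 36), (18, 36), (13, 37), (14, 37), (15, 37), (16, 37), (18, 37), (13, 38), (14, 38), (15, 38), (16, 38), (19, 38), (13, 39), (14, 39), (15, 39), (16, 39), (17, 39), (14, 40), (15, 40), (16, 40), (20, 40), (14, 41), (15, 41), (16, 41), (18, 41), (14, 42), (15, 42), (16, 42), (17, 42), (18, 42), (21, 42), (15, 43), (16, 43), (17, 43), (15, 44), (16, 44), (17, 44), (19, 44), (22, 44), (15, 45), (16, 45), (17, 45), (18, 45), (16, 46), (17, 46), (23, 46), (16, 47), (17, 47), (16, 48), (17, 48), (18, 48), (24, 48), (17, 49), (18, 49), (21, 49), (17, 50), (18, 50), (20, 50), (17, 51), (18, 51), (19, 51),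 (18, 52), (19, 52), (18, 53), (19, 53), (18, 54), (19, 54), (20, 54), (19, 55), (20, 55), (19, 56), (21, 56), (19, 57), (21, 57), (20, 58), (21, 58), (20, 59), (22, 59), (20, 60), (22, 60), (21, 61), (21, 62), (23, 62), (21, 63), (23, 63), (24, 64), (22, 65), (24, 65), (22, 66), (25, 67), (23, 68), (23, 69), (26, 70), (24, 71), (24, 72), (27, 72), (25, 74), (25, 75), (28, 75), (26, 78), (30, 80), (27, 81), (28, 84), (29, 87), (30, 90)]

theorem cone0_use (x0 y0 : ℕ)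
    (h0 : S (prodTerms 20) (x0 * 1 + y0 * 3) (x0 * 3 + y0 * 8) <
      (bin (20 + 1) 19 ^ 2) ^ (x0 * 1 + y0 * 3) * (bin (20 + 1 + 19) 19 ^ 2) ^ (x0 * 3 + y0 * 8))
    (x y : ℕ) (hx : x0 ≤ x) (hy : y0 ≤ y) : Fail (x * 1 + y * 3) (x * 3 + y * 8) :=
  useCone 20 19 1 3 3 8 x0 y0 (by norm_num) (by decide +kernel) (by decide +kernel)
    (by decide +kernel) (by decide +kernel) h0 x y hx hy

theorem cone0_b0 (x y : ℕ) (hx : 31 ≤ x) (hy : 0 ≤ y) :
    Fail (x * 1 + y * 3) (x * 3 + y * 8) :=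
  cone0_use 31 0 (by decide +kernel) x y hx hy

theorem cone0_b1 (x y : ℕ) (hx : 23 ≤ x) (hy : 1 ≤ y) :
    Fail (x * 1 + y * 3) (x * 3 + y * 8) :=
  cone0_use 23 1 (by decide +kernel) x y hx hy

theorem cone0_b2 (x y : ℕ) (hx : 16 ≤ x) (hy : 2 ≤ y) :
    Fail (x * 1 + y * 3) (x * 3 + y * 8) :=
  cone0_use 16 2 (by decide +kernel) x y hx hy

theorem cone0_b3 (x y : ℕ) (hx : 11 ≤ x) (hy : 3 ≤ y) :
    Fail (x * 1 + y * 3) (x * 3 + y * 8) :=
  cone0_use 11 3 (by decide +kernel) x y hx hy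

theorem cone0_b4 (x y : ℕ) (hx : 8 ≤ x) (hy : 4 ≤ y) :
    Fail (x * 1 + y * 3) (x * 3 + y * 8) :=
  cone0_use 8 4 (by decide +kernel) x y hx hy

theorem cone0_b5 (x y : ℕ) (hx : 7 ≤ x) (hy : 5 ≤ y) :
    Fail (x * 1 + y * 3) (x * 3 + y * 8) :=
  cone0_use 7 5 (by decide +kernel) x y hx hy

theorem cone0_b6 (x y : ℕ) (hx : 6 ≤ x) (hy : 6 ≤ y) :
    Fail (x * 1 + y * 3) (x * 3 + y * 8) :=
  cone0_use 6 6 (by decide +kernel) x y hx hy

theorem cone0_b7 (x y : ℕ) (hx : 4 ≤ x) (hy : 7 ≤ y) :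
    Fail (x * 1 + y * 3) (x * 3 + y * 8) :=
  cone0_use 4 7 (by decide +kernel) x y hx hy

theorem cone0_b8 (x y : ℕ) (hx : 3 ≤ x) (hy : 8 ≤ y) :
    Fail (x * 1 + y * 3) (x * 3 + y * 8) :=
  cone0_use 3 8 (by decide +kernel) x y hx hy

theorem cone0_b9 (x y : ℕ) (hx : 2 ≤ x) (hy : 9 ≤ y) :
    Fail (x * 1 + y * 3) (x * 3 + y * 8) :=
  cone0_use 2 9 (by decide +kernel) x y hx hy

theorem cone0_b10 (x y : ℕ) (hx : 1 ≤ x) (hy : 10 ≤ y) :
    Fail (x * 1 + y * 3) (x * 3 + y * 8) :=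
  cone0_use 1 10 (by decide +kernel) x y hx hy

theorem cone0_b11 (x y : ℕ) (hx : 0 ≤ x) (hy : 11 ≤ y) :
    Fail (x * 1 + y * 3) (x * 3 + y * 8) :=
  cone0_use 0 11 (by decide +kernel) x y hx hy

theorem cone0_f0 : ∀ x < 31, (x * 1 + 0 * 3, x * 3 + 0 * 8) ∈ B := by decide +kernel

theorem cone0_f1 : ∀ x < 23, (x * 1 + 1 * 3, x * 3 + 1 * 8) ∈ B := by decide +kernel

theorem cone0_f2 : ∀ x < 16, (x * 1 + 2 * 3, x * 3 + 2 * 8) ∈ B := by decide +kernel

theorem cone0_f3 : ∀ x < 11, (x * 1 + 3 * 3, x * 3 + 3 * 8) ∈ B := by decide +kernel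

theorem cone0_f4 : ∀ x < 8, (x * 1 + 4 * 3, x * 3 + 4 * 8) ∈ B := by decide +kernel

theorem cone0_f5 : ∀ x < 7, (x * 1 + 5 * 3, x * 3 + 5 * 8) ∈ B := by decide +kernel

theorem cone0_f6 : ∀ x < 6, (x * 1 + 6 * 3, x * 3 + 6 * 8) ∈ B := by decide +kernel

theorem cone0_f7 : ∀ x < 4, (x * 1 + 7 * 3, x * 3 + 7 * 8) ∈ B := by decide +kernel

theorem cone0_f8 : ∀ x < 3, (x * 1 + 8 * 3, x * 3 + 8 * 8) ∈ B := by decide +kernel

theorem cone0_f9 : ∀ x < 2, (x * 1 + 9 * 3, x * 3 + 9 * 8) ∈ B := by decide +kernel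

theorem cone0_f10 : ∀ x < 1, (x * 1 + 10 * 3, x * 3 + 10 * 8) ∈ B := by decide +kernel

theorem cone0 (x y : ℕ) : Fail (x * 1 + y * 3) (x * 3 + y * 8) ∨
    (x * 1 + y * 3, x * 3 + y * 8) ∈ B := by
  by_cases hy0 : y = 0
  · by_cases hx : 31 ≤ x
    · exact Or.inl (cone0_b0 x y hx (by omega))
    · right
      subst hy0
      exact cone0_f0 x (by omega)
  by_cases hy1 : y = 1
  · by_cases hx : 23 ≤ x
    · exact Or.inl (cone0_b1 x y hx (by omega))
    · right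
      subst hy1
      exact cone0_f1 x (by omega)
  by_cases hy2 : y = 2
  · by_cases hx : 16 ≤ x
    · exact Or.inl (cone0_b2 x y hx (by omega))
    · right
      subst hy2
      exact cone0_f2 x (by omega)
  by_cases hy3 : y = 3
  · by_cases hx : 11 ≤ x
    · exact Or.inl (cone0_b3 x y hx (by omega))
    · right
      subst hy3
      exact cone0_f3 x (by omega)
  by_cases hy4 : y = 4
  · by_cases hx : 8 ≤ x
    · exact Or.inl (cone0_b4 x y hx (by omega))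
    · right
      subst hy4
      exact cone0_f4 x (by omega)
  by_cases hy5 : y = 5
  · by_cases hx : 7 ≤ x
    · exact Or.inl (cone0_b5 x y hx (by omega))
    · right
      subst hy5
      exact cone0_f5 x (by omega)
  by_cases hy6 : y = 6
  · by_cases hx : 6 ≤ x
    · exact Or.inl (cone0_b6 x y hx (by omega))
    · right
      subst hy6
      exact cone0_f6 x (by omega)
  by_cases hy7 : y = 7
  · by_cases hx : 4 ≤ x
    · exact Or.inl (cone0_b7 x y hx (by omega))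
    · right
      subst hy7
      exact cone0_f7 x (by omega)
  by_cases hy8 : y = 8
  · by_cases hx : 3 ≤ x
    · exact Or.inl (cone0_b8 x y hx (by omega))
    · right
      subst hy8
      exact cone0_f8 x (by omega)
  by_cases hy9 : y = 9
  · by_cases hx : 2 ≤ x
    · exact Or.inl (cone0_b9 x y hx (by omega))
    · right
      subst hy9
      exact cone0_f9 x (by omega)
  by_cases hy10 : y = 10
  · by_cases hx : 1 ≤ x
    · exact Or.inl (cone0_b10 x y hx (by omega))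
    · right
      subst hy10
      exact cone0_f10 x (by omega)
  exact Or.inl (cone0_b11 x y (Nat.zero_le _) (by omega))

theorem cone1_use (x0 y0 : ℕ)
    (h0 : S (prodTerms 17) (x0 * 3 + y0 * 2) (x0 * 8 + y0 * 5) <
      (bin (17 + 1) 16 ^ 2) ^ (x0 * 3 + y0 * 2) * (bin (17 + 1 + 16) 16 ^ 2) ^ (x0 * 8 + y0 * 5))
    (x y : ℕ) (hx : x0 ≤ x) (hy : y0 ≤ y) : Fail (x * 3 + y * 2) (x * 8 + y * 5) :=
  useCone 17 16 3 8 2 5 x0 y0 (by norm_num) (by decide +kernel) (by decide +kernel)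
    (by decide +kernel) (by decide +kernel) h0 x y hx hy

theorem cone1_b0 (x y : ℕ) (hx : 7 ≤ x) (hy : 0 ≤ y) :
    Fail (x * 3 + y * 2) (x * 8 + y * 5) :=
  cone1_use 7 0 (by decide +kernel) x y hx hy

theorem cone1_b1 (x y : ℕ) (hx : 6 ≤ x) (hy : 1 ≤ y) :
    Fail (x * 3 + y * 2) (x * 8 + y * 5) :=
  cone1_use 6 1 (by decide +kernel) x y hx hy

theorem cone1_b2 (x y : ℕ) (hx : 5 ≤ x) (hy : 2 ≤ y) :
    Fail (x * 3 + y * 2) (x * 8 + y * 5) :=
  cone1_use 5 2 (by decide +kernel) x y hx hy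

theorem cone1_b3 (x y : ℕ) (hx : 4 ≤ x) (hy : 3 ≤ y) :
    Fail (x * 3 + y * 2) (x * 8 + y * 5) :=
  cone1_use 4 3 (by decide +kernel) x y hx hy

theorem cone1_b4 (x y : ℕ) (hx : 4 ≤ x) (hy : 4 ≤ y) :
    Fail (x * 3 + y * 2) (x * 8 + y * 5) :=
  cone1_b3 x y hx (by omega)

theorem cone1_b5 (x y : ℕ) (hx : 3 ≤ x) (hy : 5 ≤ y) :
    Fail (x * 3 + y * 2) (x * 8 + y * 5) :=
  cone1_use 3 5 (by decide +kernel) x y hx hy

theorem cone1_b6 (x y : ℕ) (hx : 2 ≤ x) (hy : 6 ≤ y) :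
    Fail (x * 3 + y * 2) (x * 8 + y * 5) :=
  cone1_use 2 6 (by decide +kernel) x y hx hy

theorem cone1_b7 (x y : ℕ) (hx : 2 ≤ x) (hy : 7 ≤ y) :
    Fail (x * 3 + y * 2) (x * 8 + y * 5) :=
  cone1_b6 x y hx (by omega)

theorem cone1_b8 (x y : ℕ) (hx : 1 ≤ x) (hy : 8 ≤ y) :
    Fail (x * 3 + y * 2) (x * 8 + y * 5) :=
  cone1_use 1 8 (by decide +kernel) x y hx hy

theorem cone1_b9 (x y : ℕ) (hx : 1 ≤ x) (hy : 9 ≤ y) :
    Fail (x * 3 + y * 2) (x * 8 + y * 5) :=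
  cone1_b8 x y hx (by omega)

theorem cone1_b10 (x y : ℕ) (hx : 1 ≤ x) (hy : 10 ≤ y) :
    Fail (x * 3 + y * 2) (x * 8 + y * 5) :=
  cone1_b9 x y hx (by omega)

theorem cone1_b11 (x y : ℕ) (hx : 0 ≤ x) (hy : 11 ≤ y) :
    Fail (x * 3 + y * 2) (x * 8 + y * 5) :=
  cone1_use 0 11 (by decide +kernel) x y hx hy

theorem cone1_f0 : ∀ x < 7, (x * 3 + 0 * 2, x * 8 + 0 * 5) ∈ B := by decide +kernel

theorem cone1_f1 : ∀ x < 6, (x * 3 + 1 * 2, x * 8 + 1 * 5) ∈ B := by decide +kernel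

theorem cone1_f2 : ∀ x < 5, (x * 3 + 2 * 2, x * 8 + 2 * 5) ∈ B := by decide +kernel

theorem cone1_f3 : ∀ x < 4, (x * 3 + 3 * 2, x * 8 + 3 * 5) ∈ B := by decide +kernel

theorem cone1_f4 : ∀ x < 4, (x * 3 + 4 * 2, x * 8 + 4 * 5) ∈ B := by decide +kernel

theorem cone1_f5 : ∀ x < 3, (x * 3 + 5 * 2, x * 8 + 5 * 5) ∈ B := by decide +kernel

theorem cone1_f6 : ∀ x < 2, (x * 3 + 6 * 2, x * 8 + 6 * 5) ∈ B := by decide +kernel

theorem cone1_f7 : ∀ x < 2, (x * 3 + 7 * 2, x * 8 + 7 * 5) ∈ B := by decide +kernel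

theorem cone1_f8 : ∀ x < 1, (x * 3 + 8 * 2, x * 8 + 8 * 5) ∈ B := by decide +kernel

theorem cone1_f9 : ∀ x < 1, (x * 3 + 9 * 2, x * 8 + 9 * 5) ∈ B := by decide +kernel

theorem cone1_f10 : ∀ x < 1, (x * 3 + 10 * 2, x * 8 + 10 * 5) ∈ B := by decide +kernel

theorem cone1 (x y : ℕ) : Fail (x * 3 + y * 2) (x * 8 + y * 5) ∨
    (x * 3 + y * 2, x * 8 + y * 5) ∈ B := by
  by_cases hy0 : y = 0
  · by_cases hx : 7 ≤ x
    · exact Or.inl (cone1_b0 x y hx (by omega))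
    · right
      subst hy0
      exact cone1_f0 x (by omega)
  by_cases hy1 : y = 1
  · by_cases hx : 6 ≤ x
    · exact Or.inl (cone1_b1 x y hx (by omega))
    · right
      subst hy1
      exact cone1_f1 x (by omega)
  by_cases hy2 : y = 2
  · by_cases hx : 5 ≤ x
    · exact Or.inl (cone1_b2 x y hx (by omega))
    · right
      subst hy2
      exact cone1_f2 x (by omega)
  by_cases hy3 : y = 3
  · by_cases hx : 4 ≤ x
    · exact Or.inl (cone1_b3 x y hx (by omega))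
    · right
      subst hy3
      exact cone1_f3 x (by omega)
  by_cases hy4 : y = 4
  · by_cases hx : 4 ≤ x
    · exact Or.inl (cone1_b4 x y hx (by omega))
    · right
      subst hy4
      exact cone1_f4 x (by omega)
  by_cases hy5 : y = 5
  · by_cases hx : 3 ≤ x
    · exact Or.inl (cone1_b5 x y hx (by omega))
    · right
      subst hy5
      exact cone1_f5 x (by omega)
  by_cases hy6 : y = 6
  · by_cases hx : 2 ≤ x
    · exact Or.inl (cone1_b6 x y hx (by omega))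
    · right
      subst hy6
      exact cone1_f6 x (by omega)
  by_cases hy7 : y = 7
  · by_cases hx : 2 ≤ x
    · exact Or.inl (cone1_b7 x y hx (by omega))
    · right
      subst hy7
      exact cone1_f7 x (by omega)
  by_cases hy8 : y = 8
  · by_cases hx : 1 ≤ x
    · exact Or.inl (cone1_b8 x y hx (by omega))
    · right
      subst hy8
      exact cone1_f8 x (by omega)
  by_cases hy9 : y = 9
  · by_cases hx : 1 ≤ x
    · exact Or.inl (cone1_b9 x y hx (by omega))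
    · right
      subst hy9
      exact cone1_f9 x (by omega)
  by_cases hy10 : y = 10
  · by_cases hx : 1 ≤ x
    · exact Or.inl (cone1_b10 x y hx (by omega))
    · right
      subst hy10
      exact cone1_f10 x (by omega)
  exact Or.inl (cone1_b11 x y (Nat.zero_le _) (by omega))

theorem cone2_use (x0 y0 : ℕ)
    (h0 : S (prodTerms 15) (x0 * 2 + y0 * 3) (x0 * 5 + y0 * 7) <
      (bin (15 + 1) 14 ^ 2) ^ (x0 * 2 + y0 * 3) * (bin (15 + 1 + 14) 14 ^ 2) ^ (x0 * 5 + y0 * 7))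
    (x y : ℕ) (hx : x0 ≤ x) (hy : y0 ≤ y) : Fail (x * 2 + y * 3) (x * 5 + y * 7) :=
  useCone 15 14 2 5 3 7 x0 y0 (by norm_num) (by decide +kernel) (by decide +kernel)
    (by decide +kernel) (by decide +kernel) h0 x y hx hy

theorem cone2_b0 (x y : ℕ) (hx : 10 ≤ x) (hy : 0 ≤ y) :
    Fail (x * 2 + y * 3) (x * 5 + y * 7) :=
  cone2_use 10 0 (by decide +kernel) x y hx hy

theorem cone2_b1 (x y : ℕ) (hx : 8 ≤ x) (hy : 1 ≤ y) :
    Fail (x * 2 + y * 3) (x * 5 + y * 7) :=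
  cone2_use 8 1 (by decide +kernel) x y hx hy

theorem cone2_b2 (x y : ℕ) (hx : 6 ≤ x) (hy : 2 ≤ y) :
    Fail (x * 2 + y * 3) (x * 5 + y * 7) :=
  cone2_use 6 2 (by decide +kernel) x y hx hy

theorem cone2_b3 (x y : ℕ) (hx : 4 ≤ x) (hy : 3 ≤ y) :
    Fail (x * 2 + y * 3) (x * 5 + y * 7) :=
  cone2_use 4 3 (by decide +kernel) x y hx hy

theorem cone2_b4 (x y : ℕ) (hx : 3 ≤ x) (hy : 4 ≤ y) :
    Fail (x * 2 + y * 3) (x * 5 + y * 7) :=
  cone2_use 3 4 (by decide +kernel) x y hx hy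

theorem cone2_b5 (x y : ℕ) (hx : 1 ≤ x) (hy : 5 ≤ y) :
    Fail (x * 2 + y * 3) (x * 5 + y * 7) :=
  cone2_use 1 5 (by decide +kernel) x y hx hy

theorem cone2_b6 (x y : ℕ) (hx : 0 ≤ x) (hy : 6 ≤ y) :
    Fail (x * 2 + y * 3) (x * 5 + y * 7) :=
  cone2_use 0 6 (by decide +kernel) x y hx hy

theorem cone2_f0 : ∀ x < 10, (x * 2 + 0 * 3, x * 5 + 0 * 7) ∈ B := by decide +kernel

theorem cone2_f1 : ∀ x < 8, (x * 2 + 1 * 3, x * 5 + 1 * 7) ∈ B := by decide +kernel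

theorem cone2_f2 : ∀ x < 6, (x * 2 + 2 * 3, x * 5 + 2 * 7) ∈ B := by decide +kernel

theorem cone2_f3 : ∀ x < 4, (x * 2 + 3 * 3, x * 5 + 3 * 7) ∈ B := by decide +kernel

theorem cone2_f4 : ∀ x < 3, (x * 2 + 4 * 3, x * 5 + 4 * 7) ∈ B := by decide +kernel

theorem cone2_f5 : ∀ x < 1, (x * 2 + 5 * 3, x * 5 + 5 * 7) ∈ B := by decide +kernel

theorem cone2 (x y : ℕ) : Fail (x * 2 + y * 3) (x * 5 + y * 7) ∨
    (x * 2 + y * 3, x * 5 + y * 7) ∈ B := by
  by_cases hy0 : y = 0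
  · by_cases hx : 10 ≤ x
    · exact Or.inl (cone2_b0 x y hx (by omega))
    · right
      subst hy0
      exact cone2_f0 x (by omega)
  by_cases hy1 : y = 1
  · by_cases hx : 8 ≤ x
    · exact Or.inl (cone2_b1 x y hx (by omega))
    · right
      subst hy1
      exact cone2_f1 x (by omega)
  by_cases hy2 : y = 2
  · by_cases hx : 6 ≤ x
    · exact Or.inl (cone2_b2 x y hx (by omega))
    · right
      subst hy2
      exact cone2_f2 x (by omega)
  by_cases hy3 : y = 3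
  · by_cases hx : 4 ≤ x
    · exact Or.inl (cone2_b3 x y hx (by omega))
    · right
      subst hy3
      exact cone2_f3 x (by omega)
  by_cases hy4 : y = 4
  · by_cases hx : 3 ≤ x
    · exact Or.inl (cone2_b4 x y hx (by omega))
    · right
      subst hy4
      exact cone2_f4 x (by omega)
  by_cases hy5 : y = 5
  · by_cases hx : 1 ≤ x
    · exact Or.inl (cone2_b5 x y hx (by omega))
    · right
      subst hy5
      exact cone2_f5 x (by omega)
  exact Or.inl (cone2_b6 x y (Nat.zero_le _) (by omega))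

theorem cone3_use (x0 y0 : ℕ)
    (h0 : S (prodTerms 13) (x0 * 3 + y0 * 1) (x0 * 7 + y0 * 2) <
      (bin (13 + 1) 12 ^ 2) ^ (x0 * 3 + y0 * 1) * (bin (13 + 1 + 12) 12 ^ 2) ^ (x0 * 7 + y0 * 2))
    (x y : ℕ) (hx : x0 ≤ x) (hy : y0 ≤ y) : Fail (x * 3 + y * 1) (x * 7 + y * 2) :=
  useCone 13 12 3 7 1 2 x0 y0 (by norm_num) (by decide +kernel) (by decide +kernel)
    (by decide +kernel) (by decide +kernel) h0 x y hx hy

theorem cone3_b0 (x y : ℕ) (hx : 8 ≤ x) (hy : 0 ≤ y) :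
    Fail (x * 3 + y * 1) (x * 7 + y * 2) :=
  cone3_use 8 0 (by decide +kernel) x y hx hy

theorem cone3_b1 (x y : ℕ) (hx : 7 ≤ x) (hy : 1 ≤ y) :
    Fail (x * 3 + y * 1) (x * 7 + y * 2) :=
  cone3_use 7 1 (by decide +kernel) x y hx hy

theorem cone3_b2 (x y : ℕ) (hx : 6 ≤ x) (hy : 2 ≤ y) :
    Fail (x * 3 + y * 1) (x * 7 + y * 2) :=
  cone3_use 6 2 (by decide +kernel) x y hx hy

theorem cone3_b3 (x y : ℕ) (hx : 6 ≤ x) (hy : 3 ≤ y) :
    Fail (x * 3 + y * 1) (x * 7 + y * 2) :=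
  cone3_b2 x y hx (by omega)

theorem cone3_b4 (x y : ℕ) (hx : 5 ≤ x) (hy : 4 ≤ y) :
    Fail (x * 3 + y * 1) (x * 7 + y * 2) :=
  cone3_use 5 4 (by decide +kernel) x y hx hy

theorem cone3_b5 (x y : ℕ) (hx : 4 ≤ x) (hy : 5 ≤ y) :
    Fail (x * 3 + y * 1) (x * 7 + y * 2) :=
  cone3_use 4 5 (by decide +kernel) x y hx hy

theorem cone3_b6 (x y : ℕ) (hx : 4 ≤ x) (hy : 6 ≤ y) :
    Fail (x * 3 + y * 1) (x * 7 + y * 2) :=
  cone3_b5 x y hx (by omega)

theorem cone3_b7 (x y : ℕ) (hx : 3 ≤ x) (hy : 7 ≤ y) :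
    Fail (x * 3 + y * 1) (x * 7 + y * 2) :=
  cone3_use 3 7 (by decide +kernel) x y hx hy

theorem cone3_b8 (x y : ℕ) (hx : 3 ≤ x) (hy : 8 ≤ y) :
    Fail (x * 3 + y * 1) (x * 7 + y * 2) :=
  cone3_b7 x y hx (by omega)

theorem cone3_b9 (x y : ℕ) (hx : 3 ≤ x) (hy : 9 ≤ y) :
    Fail (x * 3 + y * 1) (x * 7 + y * 2) :=
  cone3_b8 x y hx (by omega)

theorem cone3_b10 (x y : ℕ) (hx : 2 ≤ x) (hy : 10 ≤ y) :
    Fail (x * 3 + y * 1) (x * 7 + y * 2) :=
  cone3_use 2 10 (by decide +kernel) x y hx hy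

theorem cone3_b11 (x y : ℕ) (hx : 2 ≤ x) (hy : 11 ≤ y) :
    Fail (x * 3 + y * 1) (x * 7 + y * 2) :=
  cone3_b10 x y hx (by omega)

theorem cone3_b12 (x y : ℕ) (hx : 2 ≤ x) (hy : 12 ≤ y) :
    Fail (x * 3 + y * 1) (x * 7 + y * 2) :=
  cone3_b11 x y hx (by omega)

theorem cone3_b13 (x y : ℕ) (hx : 2 ≤ x) (hy : 13 ≤ y) :
    Fail (x * 3 + y * 1) (x * 7 + y * 2) :=
  cone3_b12 x y hx (by omega)

theorem cone3_b14 (x y : ℕ) (hx : 2 ≤ x) (hy : 14 ≤ y) :
    Fail (x * 3 + y * 1) (x * 7 + y * 2) :=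
  cone3_b13 x y hx (by omega)

theorem cone3_b15 (x y : ℕ) (hx : 2 ≤ x) (hy : 15 ≤ y) :
    Fail (x * 3 + y * 1) (x * 7 + y * 2) :=
  cone3_b14 x y hx (by omega)

theorem cone3_b16 (x y : ℕ) (hx : 1 ≤ x) (hy : 16 ≤ y) :
    Fail (x * 3 + y * 1) (x * 7 + y * 2) :=
  cone3_use 1 16 (by decide +kernel) x y hx hy

theorem cone3_b17 (x y : ℕ) (hx : 1 ≤ x) (hy : 17 ≤ y) :
    Fail (x * 3 + y * 1) (x * 7 + y * 2) :=
  cone3_b16 x y hx (by omega)

theorem cone3_b18 (x y : ℕ) (hx : 1 ≤ x) (hy : 18 ≤ y) :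
    Fail (x * 3 + y * 1) (x * 7 + y * 2) :=
  cone3_b17 x y hx (by omega)

theorem cone3_b19 (x y : ℕ) (hx : 1 ≤ x) (hy : 19 ≤ y) :
    Fail (x * 3 + y * 1) (x * 7 + y * 2) :=
  cone3_b18 x y hx (by omega)

theorem cone3_b20 (x y : ℕ) (hx : 1 ≤ x) (hy : 20 ≤ y) :
    Fail (x * 3 + y * 1) (x * 7 + y * 2) :=
  cone3_b19 x y hx (by omega)

theorem cone3_b21 (x y : ℕ) (hx : 1 ≤ x) (hy : 21 ≤ y) :
    Fail (x * 3 + y * 1) (x * 7 + y * 2) :=
  cone3_b20 x y hx (by omega)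

theorem cone3_b22 (x y : ℕ) (hx : 1 ≤ x) (hy : 22 ≤ y) :
    Fail (x * 3 + y * 1) (x * 7 + y * 2) :=
  cone3_b21 x y hx (by omega)

theorem cone3_b23 (x y : ℕ) (hx : 1 ≤ x) (hy : 23 ≤ y) :
    Fail (x * 3 + y * 1) (x * 7 + y * 2) :=
  cone3_b22 x y hx (by omega)

theorem cone3_b24 (x y : ℕ) (hx : 1 ≤ x) (hy : 24 ≤ y) :
    Fail (x * 3 + y * 1) (x * 7 + y * 2) :=
  cone3_b23 x y hx (by omega)

theorem cone3_b25 (x y : ℕ) (hx : 0 ≤ x) (hy : 25 ≤ y) :
    Fail (x * 3 + y * 1) (x * 7 + y * 2) :=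
  cone3_use 0 25 (by decide +kernel) x y hx hy

theorem cone3_f0 : ∀ x < 8, (x * 3 + 0 * 1, x * 7 + 0 * 2) ∈ B := by decide +kernel

theorem cone3_f1 : ∀ x < 7, (x * 3 + 1 * 1, x * 7 + 1 * 2) ∈ B := by decide +kernel

theorem cone3_f2 : ∀ x < 6, (x * 3 + 2 * 1, x * 7 + 2 * 2) ∈ B := by decide +kernel

theorem cone3_f3 : ∀ x < 6, (x * 3 + 3 * 1, x * 7 + 3 * 2) ∈ B := by decide +kernel

theorem cone3_f4 : ∀ x < 5, (x * 3 + 4 * 1, x * 7 + 4 * 2) ∈ B := by decide +kernel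

theorem cone3_f5 : ∀ x < 4, (x * 3 + 5 * 1, x * 7 + 5 * 2) ∈ B := by decide +kernel

theorem cone3_f6 : ∀ x < 4, (x * 3 + 6 * 1, x * 7 + 6 * 2) ∈ B := by decide +kernel

theorem cone3_f7 : ∀ x < 3, (x * 3 + 7 * 1, x * 7 + 7 * 2) ∈ B := by decide +kernel

theorem cone3_f8 : ∀ x < 3, (x * 3 + 8 * 1, x * 7 + 8 * 2) ∈ B := by decide +kernel

theorem cone3_f9 : ∀ x < 3, (x * 3 + 9 * 1, x * 7 + 9 * 2) ∈ B := by decide +kernel

theorem cone3_f10 : ∀ x < 2, (x * 3 + 10 * 1, x * 7 + 10 * 2) ∈ B := by decide +kernel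

theorem cone3_f11 : ∀ x < 2, (x * 3 + 11 * 1, x * 7 + 11 * 2) ∈ B := by decide +kernel

theorem cone3_f12 : ∀ x < 2, (x * 3 + 12 * 1, x * 7 + 12 * 2) ∈ B := by decide +kernel

theorem cone3_f13 : ∀ x < 2, (x * 3 + 13 * 1, x * 7 + 13 * 2) ∈ B := by decide +kernel

theorem cone3_f14 : ∀ x < 2, (x * 3 + 14 * 1, x * 7 + 14 * 2) ∈ B := by decide +kernel

theorem cone3_f15 : ∀ x < 2, (x * 3 + 15 * 1, x * 7 + 15 * 2) ∈ B := by decide +kernel

theorem cone3_f16 : ∀ x < 1, (x * 3 + 16 * 1, x * 7 + 16 * 2) ∈ B := by decide +kernel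

theorem cone3_f17 : ∀ x < 1, (x * 3 + 17 * 1, x * 7 + 17 * 2) ∈ B := by decide +kernel

theorem cone3_f18 : ∀ x < 1, (x * 3 + 18 * 1, x * 7 + 18 * 2) ∈ B := by decide +kernel

theorem cone3_f19 : ∀ x < 1, (x * 3 + 19 * 1, x * 7 + 19 * 2) ∈ B := by decide +kernel

theorem cone3_f20 : ∀ x < 1, (x * 3 + 20 * 1, x * 7 + 20 * 2) ∈ B := by decide +kernel

theorem cone3_f21 : ∀ x < 1, (x * 3 + 21 * 1, x * 7 + 21 * 2) ∈ B := by decide +kernel

theorem cone3_f22 : ∀ x < 1, (x * 3 + 22 * 1, x * 7 + 22 * 2) ∈ B := by decide +kernel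

theorem cone3_f23 : ∀ x < 1, (x * 3 + 23 * 1, x * 7 + 23 * 2) ∈ B := by decide +kernel

theorem cone3_f24 : ∀ x < 1, (x * 3 + 24 * 1, x * 7 + 24 * 2) ∈ B := by decide +kernel

theorem cone3 (x y : ℕ) : Fail (x * 3 + y * 1) (x * 7 + y * 2) ∨
    (x * 3 + y * 1, x * 7 + y * 2) ∈ B := by
  by_cases hy0 : y = 0
  · by_cases hx : 8 ≤ x
    · exact Or.inl (cone3_b0 x y hx (by omega))
    · right
      subst hy0
      exact cone3_f0 x (by omega)
  by_cases hy1 : y = 1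
  · by_cases hx : 7 ≤ x
    · exact Or.inl (cone3_b1 x y hx (by omega))
    · right
      subst hy1
      exact cone3_f1 x (by omega)
  by_cases hy2 : y = 2
  · by_cases hx : 6 ≤ x
    · exact Or.inl (cone3_b2 x y hx (by omega))
    · right
      subst hy2
      exact cone3_f2 x (by omega)
  by_cases hy3 : y = 3
  · by_cases hx : 6 ≤ x
    · exact Or.inl (cone3_b3 x y hx (by omega))
    · right
      subst hy3
      exact cone3_f3 x (by omega)
  by_cases hy4 : y = 4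
  · by_cases hx : 5 ≤ x
    · exact Or.inl (cone3_b4 x y hx (by omega))
    · right
      subst hy4
      exact cone3_f4 x (by omega)
  by_cases hy5 : y = 5
  · by_cases hx : 4 ≤ x
    · exact Or.inl (cone3_b5 x y hx (by omega))
    · right
      subst hy5
      exact cone3_f5 x (by omega)
  by_cases hy6 : y = 6
  · by_cases hx : 4 ≤ x
    · exact Or.inl (cone3_b6 x y hx (by omega))
    · right
      subst hy6
      exact cone3_f6 x (by omega)
  by_cases hy7 : y = 7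
  · by_cases hx : 3 ≤ x
    · exact Or.inl (cone3_b7 x y hx (by omega))
    · right
      subst hy7
      exact cone3_f7 x (by omega)
  by_cases hy8 : y = 8
  · by_cases hx : 3 ≤ x
    · exact Or.inl (cone3_b8 x y hx (by omega))
    · right
      subst hy8
      exact cone3_f8 x (by omega)
  by_cases hy9 : y = 9
  · by_cases hx : 3 ≤ x
    · exact Or.inl (cone3_b9 x y hx (by omega))
    · right
      subst hy9
      exact cone3_f9 x (by omega)
  by_cases hy10 : y = 10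
  · by_cases hx : 2 ≤ x
    · exact Or.inl (cone3_b10 x y hx (by omega))
    · right
      subst hy10
      exact cone3_f10 x (by omega)
  by_cases hy11 : y = 11
  · by_cases hx : 2 ≤ x
    · exact Or.inl (cone3_b11 x y hx (by omega))
    · right
      subst hy11
      exact cone3_f11 x (by omega)
  by_cases hy12 : y = 12
  · by_cases hx : 2 ≤ x
    · exact Or.inl (cone3_b12 x y hx (by omega))
    · right
      subst hy12
      exact cone3_f12 x (by omega)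
  by_cases hy13 : y = 13
  · by_cases hx : 2 ≤ x
    · exact Or.inl (cone3_b13 x y hx (by omega))
    · right
      subst hy13
      exact cone3_f13 x (by omega)
  by_cases hy14 : y = 14
  · by_cases hx : 2 ≤ x
    · exact Or.inl (cone3_b14 x y hx (by omega))
    · right
      subst hy14
      exact cone3_f14 x (by omega)
  by_cases hy15 : y = 15
  · by_cases hx : 2 ≤ x
    · exact Or.inl (cone3_b15 x y hx (by omega))
    · right
      subst hy15
      exact cone3_f15 x (by omega)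
  by_cases hy16 : y = 16
  · by_cases hx : 1 ≤ x
    · exact Or.inl (cone3_b16 x y hx (by omega))
    · right
      subst hy16
      exact cone3_f16 x (by omega)
  by_cases hy17 : y = 17
  · by_cases hx : 1 ≤ x
    · exact Or.inl (cone3_b17 x y hx (by omega))
    · right
      subst hy17
      exact cone3_f17 x (by omega)
  by_cases hy18 : y = 18
  · by_cases hx : 1 ≤ x
    · exact Or.inl (cone3_b18 x y hx (by omega))
    · right
      subst hy18
      exact cone3_f18 x (by omega)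
  by_cases hy19 : y = 19
  · by_cases hx : 1 ≤ x
    · exact Or.inl (cone3_b19 x y hx (by omega))
    · right
      subst hy19
      exact cone3_f19 x (by omega)
  by_cases hy20 : y = 20
  · by_cases hx : 1 ≤ x
    · exact Or.inl (cone3_b20 x y hx (by omega))
    · right
      subst hy20
      exact cone3_f20 x (by omega)
  by_cases hy21 : y = 21
  · by_cases hx : 1 ≤ x
    · exact Or.inl (cone3_b21 x y hx (by omega))
    · right
      subst hy21
      exact cone3_f21 x (by omega)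
  by_cases hy22 : y = 22
  · by_cases hx : 1 ≤ x
    · exact Or.inl (cone3_b22 x y hx (by omega))
    · right
      subst hy22
      exact cone3_f22 x (by omega)
  by_cases hy23 : y = 23
  · by_cases hx : 1 ≤ x
    · exact Or.inl (cone3_b23 x y hx (by omega))
    · right
      subst hy23
      exact cone3_f23 x (by omega)
  by_cases hy24 : y = 24
  · by_cases hx : 1 ≤ x
    · exact Or.inl (cone3_b24 x y hx (by omega))
    · right
      subst hy24
      exact cone3_f24 x (by omega)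
  exact Or.inl (cone3_b25 x y (Nat.zero_le _) (by omega))

theorem cone4_use (x0 y0 : ℕ)
    (h0 : S (prodTerms 5) (x0 * 1 + y0 * 3) (x0 * 2 + y0 * 5) <
      (bin (5 + 1) 5 ^ 2) ^ (x0 * 1 + y0 * 3) * (bin (5 + 1 + 5) 5 ^ 2) ^ (x0 * 2 + y0 * 5))
    (x y : ℕ) (hx : x0 ≤ x) (hy : y0 ≤ y) : Fail (x * 1 + y * 3) (x * 2 + y * 5) :=
  useCone 5 5 1 2 3 5 x0 y0 (by norm_num) (by decide +kernel) (by decide +kernel)
    (by decide +kernel) (by decide +kernel) h0 x y hx hy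

theorem cone4_b0 (x y : ℕ) (hx : 16 ≤ x) (hy : 0 ≤ y) :
    Fail (x * 1 + y * 3) (x * 2 + y * 5) :=
  cone4_use 16 0 (by decide +kernel) x y hx hy

theorem cone4_b1 (x y : ℕ) (hx : 10 ≤ x) (hy : 1 ≤ y) :
    Fail (x * 1 + y * 3) (x * 2 + y * 5) :=
  cone4_use 10 1 (by decide +kernel) x y hx hy

theorem cone4_b2 (x y : ℕ) (hx : 6 ≤ x) (hy : 2 ≤ y) :
    Fail (x * 1 + y * 3) (x * 2 + y * 5) :=
  cone4_use 6 2 (by decide +kernel) x y hx hy

theorem cone4_b3 (x y : ℕ) (hx : 3 ≤ x) (hy : 3 ≤ y) :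
    Fail (x * 1 + y * 3) (x * 2 + y * 5) :=
  cone4_use 3 3 (by decide +kernel) x y hx hy

theorem cone4_b4 (x y : ℕ) (hx : 1 ≤ x) (hy : 4 ≤ y) :
    Fail (x * 1 + y * 3) (x * 2 + y * 5) :=
  cone4_use 1 4 (by decide +kernel) x y hx hy

theorem cone4_b5 (x y : ℕ) (hx : 0 ≤ x) (hy : 5 ≤ y) :
    Fail (x * 1 + y * 3) (x * 2 + y * 5) :=
  cone4_use 0 5 (by decide +kernel) x y hx hy

theorem cone4_f0 : ∀ x < 16, (x * 1 + 0 * 3, x * 2 + 0 * 5) ∈ B := by decide +kernel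

theorem cone4_f1 : ∀ x < 10, (x * 1 + 1 * 3, x * 2 + 1 * 5) ∈ B := by decide +kernel

theorem cone4_f2 : ∀ x < 6, (x * 1 + 2 * 3, x * 2 + 2 * 5) ∈ B := by decide +kernel

theorem cone4_f3 : ∀ x < 3, (x * 1 + 3 * 3, x * 2 + 3 * 5) ∈ B := by decide +kernel

theorem cone4_f4 : ∀ x < 1, (x * 1 + 4 * 3, x * 2 + 4 * 5) ∈ B := by decide +kernel

theorem cone4 (x y : ℕ) : Fail (x * 1 + y * 3) (x * 2 + y * 5) ∨
    (x * 1 + y * 3, x * 2 + y * 5) ∈ B := by
  by_cases hy0 : y = 0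
  · by_cases hx : 16 ≤ x
    · exact Or.inl (cone4_b0 x y hx (by omega))
    · right
      subst hy0
      exact cone4_f0 x (by omega)
  by_cases hy1 : y = 1
  · by_cases hx : 10 ≤ x
    · exact Or.inl (cone4_b1 x y hx (by omega))
    · right
      subst hy1
      exact cone4_f1 x (by omega)
  by_cases hy2 : y = 2
  · by_cases hx : 6 ≤ x
    · exact Or.inl (cone4_b2 x y hx (by omega))
    · right
      subst hy2
      exact cone4_f2 x (by omega)
  by_cases hy3 : y = 3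
  · by_cases hx : 3 ≤ x
    · exact Or.inl (cone4_b3 x y hx (by omega))
    · right
      subst hy3
      exact cone4_f3 x (by omega)
  by_cases hy4 : y = 4
  · by_cases hx : 1 ≤ x
    · exact Or.inl (cone4_b4 x y hx (by omega))
    · right
      subst hy4
      exact cone4_f4 x (by omega)
  exact Or.inl (cone4_b5 x y (Nat.zero_le _) (by omega))

theorem cone5_use (x0 y0 : ℕ)
    (h0 : S (prodTerms 4) (x0 * 3 + y0 * 2) (x0 * 5 + y0 * 3) <
      (bin (4 + 1) 4 ^ 2) ^ (x0 * 3 + y0 * 2) * (bin (4 + 1 + 4) 4 ^ 2) ^ (x0 * 5 + y0 * 3))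
    (x y : ℕ) (hx : x0 ≤ x) (hy : y0 ≤ y) : Fail (x * 3 + y * 2) (x * 5 + y * 3) :=
  useCone 4 4 3 5 2 3 x0 y0 (by norm_num) (by decide +kernel) (by decide +kernel)
    (by decide +kernel) (by decide +kernel) h0 x y hx hy

theorem cone5_b0 (x y : ℕ) (hx : 4 ≤ x) (hy : 0 ≤ y) :
    Fail (x * 3 + y * 2) (x * 5 + y * 3) :=
  cone5_use 4 0 (by decide +kernel) x y hx hy

theorem cone5_b1 (x y : ℕ) (hx : 3 ≤ x) (hy : 1 ≤ y) :
    Fail (x * 3 + y * 2) (x * 5 + y * 3) :=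
  cone5_use 3 1 (by decide +kernel) x y hx hy

theorem cone5_b2 (x y : ℕ) (hx : 2 ≤ x) (hy : 2 ≤ y) :
    Fail (x * 3 + y * 2) (x * 5 + y * 3) :=
  cone5_use 2 2 (by decide +kernel) x y hx hy

theorem cone5_b3 (x y : ℕ) (hx : 2 ≤ x) (hy : 3 ≤ y) :
    Fail (x * 3 + y * 2) (x * 5 + y * 3) :=
  cone5_b2 x y hx (by omega)

theorem cone5_b4 (x y : ℕ) (hx : 1 ≤ x) (hy : 4 ≤ y) :
    Fail (x * 3 + y * 2) (x * 5 + y * 3) :=
  cone5_use 1 4 (by decide +kernel) x y hx hy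

theorem cone5_b5 (x y : ℕ) (hx : 0 ≤ x) (hy : 5 ≤ y) :
    Fail (x * 3 + y * 2) (x * 5 + y * 3) :=
  cone5_use 0 5 (by decide +kernel) x y hx hy

theorem cone5_f0 : ∀ x < 4, (x * 3 + 0 * 2, x * 5 + 0 * 3) ∈ B := by decide +kernel

theorem cone5_f1 : ∀ x < 3, (x * 3 + 1 * 2, x * 5 + 1 * 3) ∈ B := by decide +kernel

theorem cone5_f2 : ∀ x < 2, (x * 3 + 2 * 2, x * 5 + 2 * 3) ∈ B := by decide +kernel

theorem cone5_f3 : ∀ x < 2, (x * 3 + 3 * 2, x * 5 + 3 * 3) ∈ B := by decide +kernel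

theorem cone5_f4 : ∀ x < 1, (x * 3 + 4 * 2, x * 5 + 4 * 3) ∈ B := by decide +kernel

theorem cone5 (x y : ℕ) : Fail (x * 3 + y * 2) (x * 5 + y * 3) ∨
    (x * 3 + y * 2, x * 5 + y * 3) ∈ B := by
  by_cases hy0 : y = 0
  · by_cases hx : 4 ≤ x
    · exact Or.inl (cone5_b0 x y hx (by omega))
    · right
      subst hy0
      exact cone5_f0 x (by omega)
  by_cases hy1 : y = 1
  · by_cases hx : 3 ≤ x
    · exact Or.inl (cone5_b1 x y hx (by omega))
    · right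
      subst hy1
      exact cone5_f1 x (by omega)
  by_cases hy2 : y = 2
  · by_cases hx : 2 ≤ x
    · exact Or.inl (cone5_b2 x y hx (by omega))
    · right
      subst hy2
      exact cone5_f2 x (by omega)
  by_cases hy3 : y = 3
  · by_cases hx : 2 ≤ x
    · exact Or.inl (cone5_b3 x y hx (by omega))
    · right
      subst hy3
      exact cone5_f3 x (by omega)
  by_cases hy4 : y = 4
  · by_cases hx : 1 ≤ x
    · exact Or.inl (cone5_b4 x y hx (by omega))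
    · right
      subst hy4
      exact cone5_f4 x (by omega)
  exact Or.inl (cone5_b5 x y (Nat.zero_le _) (by omega))

theorem cone6_use (x0 y0 : ℕ)
    (h0 : S (prodTerms 3) (x0 * 2 + y0 * 1) (x0 * 3 + y0 * 1) <
      (bin (3 + 1) 3 ^ 2) ^ (x0 * 2 + y0 * 1) * (bin (3 + 1 + 3) 3 ^ 2) ^ (x0 * 3 + y0 * 1))
    (x y : ℕ) (hx : x0 ≤ x) (hy : y0 ≤ y) : Fail (x * 2 + y * 1) (x * 3 + y * 1) :=
  useCone 3 3 2 3 1 1 x0 y0 (by norm_num) (by decide +kernel) (by decide +kernel)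
    (by decide +kernel) (by decide +kernel) h0 x y hx hy

theorem cone6_b0 (x y : ℕ) (hx : 8 ≤ x) (hy : 0 ≤ y) :
    Fail (x * 2 + y * 1) (x * 3 + y * 1) :=
  cone6_use 8 0 (by decide +kernel) x y hx hy

theorem cone6_b1 (x y : ℕ) (hx : 6 ≤ x) (hy : 1 ≤ y) :
    Fail (x * 2 + y * 1) (x * 3 + y * 1) :=
  cone6_use 6 1 (by decide +kernel) x y hx hy

theorem cone6_b2 (x y : ℕ) (hx : 5 ≤ x) (hy : 2 ≤ y) :
    Fail (x * 2 + y * 1) (x * 3 + y * 1) :=
  cone6_use 5 2 (by decide +kernel) x y hx hy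

theorem cone6_b3 (x y : ℕ) (hx : 3 ≤ x) (hy : 3 ≤ y) :
    Fail (x * 2 + y * 1) (x * 3 + y * 1) :=
  cone6_use 3 3 (by decide +kernel) x y hx hy

theorem cone6_b4 (x y : ℕ) (hx : 2 ≤ x) (hy : 4 ≤ y) :
    Fail (x * 2 + y * 1) (x * 3 + y * 1) :=
  cone6_use 2 4 (by decide +kernel) x y hx hy

theorem cone6_b5 (x y : ℕ) (hx : 2 ≤ x) (hy : 5 ≤ y) :
    Fail (x * 2 + y * 1) (x * 3 + y * 1) :=
  cone6_b4 x y hx (by omega)

theorem cone6_b6 (x y : ℕ) (hx : 1 ≤ x) (hy : 6 ≤ y) :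
    Fail (x * 2 + y * 1) (x * 3 + y * 1) :=
  cone6_use 1 6 (by decide +kernel) x y hx hy

theorem cone6_b7 (x y : ℕ) (hx : 1 ≤ x) (hy : 7 ≤ y) :
    Fail (x * 2 + y * 1) (x * 3 + y * 1) :=
  cone6_b6 x y hx (by omega)

theorem cone6_b8 (x y : ℕ) (hx : 1 ≤ x) (hy : 8 ≤ y) :
    Fail (x * 2 + y * 1) (x * 3 + y * 1) :=
  cone6_b7 x y hx (by omega)

theorem cone6_b9 (x y : ℕ) (hx : 0 ≤ x) (hy : 9 ≤ y) :
    Fail (x * 2 + y * 1) (x * 3 + y * 1) :=
  cone6_use 0 9 (by decide +kernel) x y hx hy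

theorem cone6_f0 : ∀ x < 8, (x * 2 + 0 * 1, x * 3 + 0 * 1) ∈ B := by decide +kernel

theorem cone6_f1 : ∀ x < 6, (x * 2 + 1 * 1, x * 3 + 1 * 1) ∈ B := by decide +kernel

theorem cone6_f2 : ∀ x < 5, (x * 2 + 2 * 1, x * 3 + 2 * 1) ∈ B := by decide +kernel

theorem cone6_f3 : ∀ x < 3, (x * 2 + 3 * 1, x * 3 + 3 * 1) ∈ B := by decide +kernel

theorem cone6_f4 : ∀ x < 2, (x * 2 + 4 * 1, x * 3 + 4 * 1) ∈ B := by decide +kernel

theorem cone6_f5 : ∀ x < 2, (x * 2 + 5 * 1, x * 3 + 5 * 1) ∈ B := by decide +kernel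

theorem cone6_f6 : ∀ x < 1, (x * 2 + 6 * 1, x * 3 + 6 * 1) ∈ B := by decide +kernel

theorem cone6_f7 : ∀ x < 1, (x * 2 + 7 * 1, x * 3 + 7 * 1) ∈ B := by decide +kernel

theorem cone6_f8 : ∀ x < 1, (x * 2 + 8 * 1, x * 3 + 8 * 1) ∈ B := by decide +kernel

theorem cone6 (x y : ℕ) : Fail (x * 2 + y * 1) (x * 3 + y * 1) ∨
    (x * 2 + y * 1, x * 3 + y * 1) ∈ B := by
  by_cases hy0 : y = 0
  · by_cases hx : 8 ≤ x
    · exact Or.inl (cone6_b0 x y hx (by omega))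
    · right
      subst hy0
      exact cone6_f0 x (by omega)
  by_cases hy1 : y = 1
  · by_cases hx : 6 ≤ x
    · exact Or.inl (cone6_b1 x y hx (by omega))
    · right
      subst hy1
      exact cone6_f1 x (by omega)
  by_cases hy2 : y = 2
  · by_cases hx : 5 ≤ x
    · exact Or.inl (cone6_b2 x y hx (by omega))
    · right
      subst hy2
      exact cone6_f2 x (by omega)
  by_cases hy3 : y = 3
  · by_cases hx : 3 ≤ x
    · exact Or.inl (cone6_b3 x y hx (by omega))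
    · right
      subst hy3
      exact cone6_f3 x (by omega)
  by_cases hy4 : y = 4
  · by_cases hx : 2 ≤ x
    · exact Or.inl (cone6_b4 x y hx (by omega))
    · right
      subst hy4
      exact cone6_f4 x (by omega)
  by_cases hy5 : y = 5
  · by_cases hx : 2 ≤ x
    · exact Or.inl (cone6_b5 x y hx (by omega))
    · right
      subst hy5
      exact cone6_f5 x (by omega)
  by_cases hy6 : y = 6
  · by_cases hx : 1 ≤ x
    · exact Or.inl (cone6_b6 x y hx (by omega))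
    · right
      subst hy6
      exact cone6_f6 x (by omega)
  by_cases hy7 : y = 7
  · by_cases hx : 1 ≤ x
    · exact Or.inl (cone6_b7 x y hx (by omega))
    · right
      subst hy7
      exact cone6_f7 x (by omega)
  by_cases hy8 : y = 8
  · by_cases hx : 1 ≤ x
    · exact Or.inl (cone6_b8 x y hx (by omega))
    · right
      subst hy8
      exact cone6_f8 x (by omega)
  exact Or.inl (cone6_b9 x y (Nat.zero_le _) (by omega))

theorem cone7_use (x0 y0 : ℕ)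
    (h0 : S (prodTerms 2) (x0 * 1 + y0 * 2) (x0 * 1 + y0 * 1) <
      (bin (2 + 1) 2 ^ 2) ^ (x0 * 1 + y0 * 2) * (bin (2 + 1 + 2) 2 ^ 2) ^ (x0 * 1 + y0 * 1))
    (x y : ℕ) (hx : x0 ≤ x) (hy : y0 ≤ y) : Fail (x * 1 + y * 2) (x * 1 + y * 1) :=
  useCone 2 2 1 1 2 1 x0 y0 (by norm_num) (by decide +kernel) (by decide +kernel)
    (by decide +kernel) (by decide +kernel) h0 x y hx hy

theorem cone7_b0 (x y : ℕ) (hx : 11 ≤ x) (hy : 0 ≤ y) :
    Fail (x * 1 + y * 2) (x * 1 + y * 1) :=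
  cone7_use 11 0 (by decide +kernel) x y hx hy

theorem cone7_b1 (x y : ℕ) (hx : 5 ≤ x) (hy : 1 ≤ y) :
    Fail (x * 1 + y * 2) (x * 1 + y * 1) :=
  cone7_use 5 1 (by decide +kernel) x y hx hy

theorem cone7_b2 (x y : ℕ) (hx : 3 ≤ x) (hy : 2 ≤ y) :
    Fail (x * 1 + y * 2) (x * 1 + y * 1) :=
  cone7_use 3 2 (by decide +kernel) x y hx hy

theorem cone7_b3 (x y : ℕ) (hx : 1 ≤ x) (hy : 3 ≤ y) :
    Fail (x * 1 + y * 2) (x * 1 + y * 1) :=
  cone7_use 1 3 (by decide +kernel) x y hx hy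

theorem cone7_b4 (x y : ℕ) (hx : 0 ≤ x) (hy : 4 ≤ y) :
    Fail (x * 1 + y * 2) (x * 1 + y * 1) :=
  cone7_use 0 4 (by decide +kernel) x y hx hy

theorem cone7_f0 : ∀ x < 11, (x * 1 + 0 * 2, x * 1 + 0 * 1) ∈ B := by decide +kernel

theorem cone7_f1 : ∀ x < 5, (x * 1 + 1 * 2, x * 1 + 1 * 1) ∈ B := by decide +kernel

theorem cone7_f2 : ∀ x < 3, (x * 1 + 2 * 2, x * 1 + 2 * 1) ∈ B := by decide +kernel

theorem cone7_f3 : ∀ x < 1, (x * 1 + 3 * 2, x * 1 + 3 * 1) ∈ B := by decide +kernel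

theorem cone7 (x y : ℕ) : Fail (x * 1 + y * 2) (x * 1 + y * 1) ∨
    (x * 1 + y * 2, x * 1 + y * 1) ∈ B := by
  by_cases hy0 : y = 0
  · by_cases hx : 11 ≤ x
    · exact Or.inl (cone7_b0 x y hx (by omega))
    · right
      subst hy0
      exact cone7_f0 x (by omega)
  by_cases hy1 : y = 1
  · by_cases hx : 5 ≤ x
    · exact Or.inl (cone7_b1 x y hx (by omega))
    · right
      subst hy1
      exact cone7_f1 x (by omega)
  by_cases hy2 : y = 2
  · by_cases hx : 3 ≤ x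
    · exact Or.inl (cone7_b2 x y hx (by omega))
    · right
      subst hy2
      exact cone7_f2 x (by omega)
  by_cases hy3 : y = 3
  · by_cases hx : 1 ≤ x
    · exact Or.inl (cone7_b3 x y hx (by omega))
    · right
      subst hy3
      exact cone7_f3 x (by omega)
  exact Or.inl (cone7_b4 x y (Nat.zero_le _) (by omega))

theorem cone8_use (x0 y0 : ℕ)
    (h0 : S (prodTerms 4) (x0 * 2 + y0 * 3) (x0 * 1 + y0 * 1) <
      (bin (4 + 1) 3 ^ 2) ^ (x0 * 2 + y0 * 3) * (bin (4 + 1 + 3) 3 ^ 2) ^ (x0 * 1 + y0 * 1))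
    (x y : ℕ) (hx : x0 ≤ x) (hy : y0 ≤ y) : Fail (x * 2 + y * 3) (x * 1 + y * 1) :=
  useCone 4 3 2 1 3 1 x0 y0 (by norm_num) (by decide +kernel) (by decide +kernel)
    (by decide +kernel) (by decide +kernel) h0 x y hx hy

theorem cone8_b0 (x y : ℕ) (hx : 5 ≤ x) (hy : 0 ≤ y) :
    Fail (x * 2 + y * 3) (x * 1 + y * 1) :=
  cone8_use 5 0 (by decide +kernel) x y hx hy

theorem cone8_b1 (x y : ℕ) (hx : 3 ≤ x) (hy : 1 ≤ y) :
    Fail (x * 2 + y * 3) (x * 1 + y * 1) :=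
  cone8_use 3 1 (by decide +kernel) x y hx hy

theorem cone8_b2 (x y : ℕ) (hx : 2 ≤ x) (hy : 2 ≤ y) :
    Fail (x * 2 + y * 3) (x * 1 + y * 1) :=
  cone8_use 2 2 (by decide +kernel) x y hx hy

theorem cone8_b3 (x y : ℕ) (hx : 0 ≤ x) (hy : 3 ≤ y) :
    Fail (x * 2 + y * 3) (x * 1 + y * 1) :=
  cone8_use 0 3 (by decide +kernel) x y hx hy

theorem cone8_f0 : ∀ x < 5, (x * 2 + 0 * 3, x * 1 + 0 * 1) ∈ B := by decide +kernel

theorem cone8_f1 : ∀ x < 3, (x * 2 + 1 * 3, x * 1 + 1 * 1) ∈ B := by decide +kernel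

theorem cone8_f2 : ∀ x < 2, (x * 2 + 2 * 3, x * 1 + 2 * 1) ∈ B := by decide +kernel

theorem cone8 (x y : ℕ) : Fail (x * 2 + y * 3) (x * 1 + y * 1) ∨
    (x * 2 + y * 3, x * 1 + y * 1) ∈ B := by
  by_cases hy0 : y = 0
  · by_cases hx : 5 ≤ x
    · exact Or.inl (cone8_b0 x y hx (by omega))
    · right
      subst hy0
      exact cone8_f0 x (by omega)
  by_cases hy1 : y = 1
  · by_cases hx : 3 ≤ x
    · exact Or.inl (cone8_b1 x y hx (by omega))
    · right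
      subst hy1
      exact cone8_f1 x (by omega)
  by_cases hy2 : y = 2
  · by_cases hx : 2 ≤ x
    · exact Or.inl (cone8_b2 x y hx (by omega))
    · right
      subst hy2
      exact cone8_f2 x (by omega)
  exact Or.inl (cone8_b3 x y (Nat.zero_le _) (by omega))

theorem cone9_use (x0 y0 : ℕ)
    (h0 : S (prodTerms 1) (x0 * 3 + y0 * 1) (x0 * 1 + y0 * 0) <
      (bin (1 + 1) 1 ^ 2) ^ (x0 * 3 + y0 * 1) * (bin (1 + 1 + 1) 1 ^ 2) ^ (x0 * 1 + y0 * 0))
    (x y : ℕ) (hx : x0 ≤ x) (hy : y0 ≤ y) : Fail (x * 3 + y * 1) (x * 1 + y * 0) :=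
  useCone 1 1 3 1 1 0 x0 y0 (by norm_num) (by decide +kernel) (by decide +kernel)
    (by decide +kernel) (by decide +kernel) h0 x y hx hy

theorem cone9_b0 (x y : ℕ) (hx : 3 ≤ x) (hy : 0 ≤ y) :
    Fail (x * 3 + y * 1) (x * 1 + y * 0) :=
  cone9_use 3 0 (by decide +kernel) x y hx hy

theorem cone9_b1 (x y : ℕ) (hx : 2 ≤ x) (hy : 1 ≤ y) :
    Fail (x * 3 + y * 1) (x * 1 + y * 0) :=
  cone9_use 2 1 (by decide +kernel) x y hx hy

theorem cone9_b2 (x y : ℕ) (hx : 2 ≤ x) (hy : 2 ≤ y) :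
    Fail (x * 3 + y * 1) (x * 1 + y * 0) :=
  cone9_b1 x y hx (by omega)

theorem cone9_b3 (x y : ℕ) (hx : 1 ≤ x) (hy : 3 ≤ y) :
    Fail (x * 3 + y * 1) (x * 1 + y * 0) :=
  cone9_use 1 3 (by decide +kernel) x y hx hy

theorem cone9_b4 (x y : ℕ) (hx : 1 ≤ x) (hy : 4 ≤ y) :
    Fail (x * 3 + y * 1) (x * 1 + y * 0) :=
  cone9_b3 x y hx (by omega)

theorem cone9_b5 (x y : ℕ) (hx : 0 ≤ x) (hy : 5 ≤ y) :
    Fail (x * 3 + y * 1) (x * 1 + y * 0) :=
  cone9_use 0 5 (by decide +kernel) x y hx hy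

theorem cone9_f0 : ∀ x < 3, (x * 3 + 0 * 1, x * 1 + 0 * 0) ∈ B := by decide +kernel

theorem cone9_f1 : ∀ x < 2, (x * 3 + 1 * 1, x * 1 + 1 * 0) ∈ B := by decide +kernel

theorem cone9_f2 : ∀ x < 2, (x * 3 + 2 * 1, x * 1 + 2 * 0) ∈ B := by decide +kernel

theorem cone9_f3 : ∀ x < 1, (x * 3 + 3 * 1, x * 1 + 3 * 0) ∈ B := by decide +kernel

theorem cone9_f4 : ∀ x < 1, (x * 3 + 4 * 1, x * 1 + 4 * 0) ∈ B := by decide +kernel

theorem cone9 (x y : ℕ) : Fail (x * 3 + y * 1) (x * 1 + y * 0) ∨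
    (x * 3 + y * 1, x * 1 + y * 0) ∈ B := by
  by_cases hy0 : y = 0
  · by_cases hx : 3 ≤ x
    · exact Or.inl (cone9_b0 x y hx (by omega))
    · right
      subst hy0
      exact cone9_f0 x (by omega)
  by_cases hy1 : y = 1
  · by_cases hx : 2 ≤ x
    · exact Or.inl (cone9_b1 x y hx (by omega))
    · right
      subst hy1
      exact cone9_f1 x (by omega)
  by_cases hy2 : y = 2
  · by_cases hx : 2 ≤ x
    · exact Or.inl (cone9_b2 x y hx (by omega))
    · right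
      subst hy2
      exact cone9_f2 x (by omega)
  by_cases hy3 : y = 3
  · by_cases hx : 1 ≤ x
    · exact Or.inl (cone9_b3 x y hx (by omega))
    · right
      subst hy3
      exact cone9_f3 x (by omega)
  by_cases hy4 : y = 4
  · by_cases hx : 1 ≤ x
    · exact Or.inl (cone9_b4 x y hx (by omega))
    · right
      subst hy4
      exact cone9_f4 x (by omega)
  exact Or.inl (cone9_b5 x y (Nat.zero_le _) (by omega))

/-- in the region `s ≤ 3 r` log-convexity fails, up to finitely many points -/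
theorem region (r s : ℕ) (h : s ≤ 3 * r) : Fail r s ∨ (r, s) ∈ B := by
  by_cases c0 : 8 * r ≤ 3 * s
  · have h1 := cone0 (3 * s - 8 * r) (3 * r - 1 * s)
    have e1 : (3 * s - 8 * r) * 1 + (3 * r - 1 * s) * 3 = r := by omega
    have e2 : (3 * s - 8 * r) * 3 + (3 * r - 1 * s) * 8 = s := by omega
    rw [e1, e2] at h1
    exact h1
  by_cases c1 : 5 * r ≤ 2 * s
  · have h1 := cone1 (2 * s - 5 * r) (8 * r - 3 * s)
    have e1 : (2 * s - 5 * r) * 3 + (8 * r - 3 * s) * 2 = r := by omega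
    have e2 : (2 * s - 5 * r) * 8 + (8 * r - 3 * s) * 5 = s := by omega
    rw [e1, e2] at h1
    exact h1
  by_cases c2 : 7 * r ≤ 3 * s
  · have h1 := cone2 (3 * s - 7 * r) (5 * r - 2 * s)
    have e1 : (3 * s - 7 * r) * 2 + (5 * r - 2 * s) * 3 = r := by omega
    have e2 : (3 * s - 7 * r) * 5 + (5 * r - 2 * s) * 7 = s := by omega
    rw [e1, e2] at h1
    exact h1
  by_cases c3 : 2 * r ≤ 1 * s
  · have h1 := cone3 (1 * s - 2 * r) (7 * r - 3 * s)
    have e1 : (1 * s - 2 * r) * 3 + (7 * r - 3 * s) * 1 = r := by omega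
    have e2 : (1 * s - 2 * r) * 7 + (7 * r - 3 * s) * 2 = s := by omega
    rw [e1, e2] at h1
    exact h1
  by_cases c4 : 5 * r ≤ 3 * s
  · have h1 := cone4 (3 * s - 5 * r) (2 * r - 1 * s)
    have e1 : (3 * s - 5 * r) * 1 + (2 * r - 1 * s) * 3 = r := by omega
    have e2 : (3 * s - 5 * r) * 2 + (2 * r - 1 * s) * 5 = s := by omega
    rw [e1, e2] at h1
    exact h1
  by_cases c5 : 3 * r ≤ 2 * s
  · have h1 := cone5 (2 * s - 3 * r) (5 * r - 3 * s)
    have e1 : (2 * s - 3 * r) * 3 + (5 * r - 3 * s) * 2 = r := by omega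
    have e2 : (2 * s - 3 * r) * 5 + (5 * r - 3 * s) * 3 = s := by omega
    rw [e1, e2] at h1
    exact h1
  by_cases c6 : 1 * r ≤ 1 * s
  · have h1 := cone6 (1 * s - 1 * r) (3 * r - 2 * s)
    have e1 : (1 * s - 1 * r) * 2 + (3 * r - 2 * s) * 1 = r := by omega
    have e2 : (1 * s - 1 * r) * 3 + (3 * r - 2 * s) * 1 = s := by omega
    rw [e1, e2] at h1
    exact h1
  by_cases c7 : 1 * r ≤ 2 * s
  · have h1 := cone7 (2 * s - 1 * r) (1 * r - 1 * s)
    have e1 : (2 * s - 1 * r) * 1 + (1 * r - 1 * s) * 2 = r := by omega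
    have e2 : (2 * s - 1 * r) * 1 + (1 * r - 1 * s) * 1 = s := by omega
    rw [e1, e2] at h1
    exact h1
  by_cases c8 : 1 * r ≤ 3 * s
  · have h1 := cone8 (3 * s - 1 * r) (1 * r - 2 * s)
    have e1 : (3 * s - 1 * r) * 2 + (1 * r - 2 * s) * 3 = r := by omega
    have e2 : (3 * s - 1 * r) * 1 + (1 * r - 2 * s) * 1 = s := by omega
    rw [e1, e2] at h1
    exact h1
  have h1 := cone9 (1 * s - 0 * r) (1 * r - 3 * s)
  have e1 : (1 * s - 0 * r) * 3 + (1 * r - 3 * s) * 1 = r := by omega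
  have e2 : (1 * s - 0 * r) * 1 + (1 * r - 3 * s) * 0 = s := by omega
  rw [e1, e2] at h1
  exact h1

end Pool.Agent.H994.AP.Three
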