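import Pool.Agent.H994.AP.A1

set_option autoImplicit false

namespace Pool.Agent.H994.AP

theorem pieceA3 : PieceA3 := by
  unfold PieceA3
  have h1 : F 0 1 ≤ 0 := by
    unfold F
    apply Finset.sup'_le
    intro k hk
    have hk2 : k < 2 := Finset.mem_range.mp hk
    unfold phi
    interval_cases k <;> simp
  have h3 : F 0 3 ≤ Real.log 3 := by
    unfold F
    apply Finset.sup'_le
    intro k hk
    have hk2 : k < 4 := Finset.mem_range.mp hk
    have hlog3 : 0 ≤ Real.log 3 := Real.log_nonneg (by norm_num)
    unfold phi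
    interval_cases k <;> simp [Nat.choose] <;> norm_num <;> exact hlog3
  have h2 : Real.log 2 ≤ F 0 2 := by
    unfold F
    have h4 : Real.log 2 = phi 0 2 1 := by
      unfold phi; simp [Nat.choose]
    rw [h4]
    exact Finset.le_sup' (phi 0 2) (by simp)
  have h5 : Real.log 3 < 2 * Real.log 2 := by
    have h6 : 2 * Real.log 2 = Real.log 4 := by
      rw [show (4 : ℝ) = 2 ^ 2 by norm_num, Real.log_pow]; norm_num
    rw [h6]
    exact Real.log_lt_log (by norm_num) (by norm_num)
  linarith

theorem core_of (hA2 : PieceA2) : Core := by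
  intro l hl
  rcases hl.eq_or_lt with h | h
  · subst h
    exact ⟨1, pieceA3⟩
  · obtain ⟨J, hJ⟩ := exists_nat_gt l
    obtain ⟨n, k, h1, h2, h3⟩ := pieceA1 l h J
    refine ⟨n, ?_⟩
    have h4 : l < (n : ℝ) - k := by
      have : (k : ℝ) + J ≤ n := by exact_mod_cast h1
      linarith
    have h5 := hA2 l n k hl (by omega) h4
    have h6 : phi l (n + 1) (k + 1) ≤ F l (n + 1) := by
      unfold F
      exact Finset.le_sup' (phi l (n + 1)) (by rw [Finset.mem_range]; omega)
    rw [h2, h3]
    linarith

end Pool.Agent.H994.AP
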