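import Pool.Agent.H994.AP.Checks

/-!
# Stieltjes moment sequences: quadratic forms are nonnegative
-/

set_option autoImplicit false

open MeasureTheory Finset

namespace Pool.Agent.H994.AP

/-- `x` is the moment sequence of a nonnegative Borel measure on `[0,∞)`. -/
def IsStieltjes (x : ℕ → ℝ) : Prop :=
  ∃ μ : Measure ℝ, μ (Set.Iio 0) = 0 ∧
    ∀ n : ℕ, Integrable (fun t : ℝ => t ^ n) μ ∧ x n = ∫ t, t ^ n ∂μ

/-- A real sequence is infinitely log-convex if all iterates of `L` are nonnegative. -/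
def InfinitelyLogConvex (x : ℕ → ℤ) : Prop := ∀ k : ℕ, 1 ≤ k → ∀ n, 0 ≤ (L^[k] x) n

lemma quad_nonneg {x : ℕ → ℝ} (h : IsStieltjes x) (sh m : ℕ) (v : ℕ → ℝ) :
    0 ≤ ∑ i ∈ range m, ∑ j ∈ range m, v i * v j * x (i + j + sh) := by
  obtain ⟨μ, hμ, hx⟩ := h
  have h1 : ∑ i ∈ range m, ∑ j ∈ range m, v i * v j * x (i + j + sh)
      = ∫ t, ∑ i ∈ range m, ∑ j ∈ range m, v i * v j * t ^ (i + j + sh) ∂μ := by
    rw [integral_finsetSum]
    · apply Finset.sum_congr rfl
      intro i _
      rw [integral_finsetSum]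
      · apply Finset.sum_congr rfl
        intro j _
        rw [integral_const_mul, (hx _).2]
      · intro j _
        exact (hx _).1.const_mul _
    · intro i _
      apply integrable_finsetSum
      intro j _
      exact (hx _).1.const_mul _
  rw [h1]
  apply integral_nonneg_of_ae
  have h2 : ∀ᵐ t ∂μ, t ∉ Set.Iio (0 : ℝ) := by
    rw [ae_iff]
    have h3 : {a : ℝ | ¬ a ∉ Set.Iio (0 : ℝ)} = Set.Iio 0 := by
      ext t; simp
    rw [h3]
    exact hμ
  filter_upwards [h2] with t ht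
  have ht0 : 0 ≤ t := by simpa using ht
  have h3 : ∑ i ∈ range m, ∑ j ∈ range m, v i * v j * t ^ (i + j + sh)
      = (∑ i ∈ range m, v i * t ^ i) ^ 2 * t ^ sh := by
    rw [sq, Finset.sum_mul_sum, Finset.sum_mul]
    apply Finset.sum_congr rfl
    intro i _
    rw [Finset.sum_mul]
    apply Finset.sum_congr rfl
    intro j _
    rw [pow_add, pow_add]
    ring
  simp only [Pi.zero_apply]
  rw [h3]
  positivity

lemma a_pos (r s n : ℕ) : 0 < a r s n := by
  unfold a
  apply Finset.sum_pos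
  · intro k hk
    have : k ≤ n := by
      have := Finset.mem_range.mp hk
      omega
    have h1 : 0 < n.choose k := Nat.choose_pos this
    have h2 : 0 < (n + k).choose k := Nat.choose_pos (by omega)
    positivity
  · exact ⟨0, by simp⟩

lemma not_stieltjes_of_fail {r s : ℕ} (h : Fail r s) :
    ¬ IsStieltjes (fun n => (a r s n : ℝ)) := by
  intro hS
  obtain ⟨n, hn⟩ := h
  have h1 := quad_nonneg hS n 2 (fun i => if i = 0 then (a r s (n + 1) : ℝ) else -(a r s n : ℝ))
  simp only [Finset.sum_range_succ, Finset.sum_range_zero, zero_add, if_true,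
    one_ne_zero, if_false] at h1
  have e1 : 1 + 1 + n = n + 2 := by ring
  have e2 : 0 + 1 + n = n + 1 := by ring
  have e3 : 1 + 0 + n = n + 1 := by ring
  have e4 : 0 + 0 + n = n := by ring
  have h2 : ((a r s n : ℝ)) * (a r s (n + 2)) < (a r s (n + 1) : ℝ) ^ 2 := by exact_mod_cast hn
  have h3 : (0 : ℝ) < a r s n := by exact_mod_cast a_pos r s n
  have e5 : 1 + n = n + 1 := by ring
  simp only [e1, e5, add_zero] at h1
  have h4 : 0 ≤ (a r s n : ℝ) * ((a r s n : ℝ) * (a r s (n + 2)) - (a r s (n + 1) : ℝ) ^ 2) := by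
    linarith
  have h5 : (a r s n : ℝ) * ((a r s n : ℝ) * (a r s (n + 2)) - (a r s (n + 1) : ℝ) ^ 2) < 0 :=
    mul_neg_of_pos_of_neg h3 (by linarith)
  linarith

lemma list_sum_range (m : ℕ) (f : ℕ → ℤ) :
    ((List.range m).map f).sum = ∑ k ∈ Finset.range m, f k := by
  induction m with
  | zero => simp
  | succ m ih =>
    rw [List.range_succ, List.map_append, List.sum_append, ih, Finset.sum_range_succ]; simp

lemma not_stieltjes_of_qz {r s sh : ℕ} {v : List ℤ} (h : qz r s sh v < 0) :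
    ¬ IsStieltjes (fun n => (a r s n : ℝ)) := by
  intro hS
  have h1 := quad_nonneg hS sh v.length (fun i => ((v.getD i 0 : ℤ) : ℝ))
  unfold qz at h
  rw [list_sum_range] at h
  simp only [list_sum_range, A_eq] at h
  have h2 : (((∑ i ∈ range v.length, ∑ j ∈ range v.length,
      v.getD i 0 * v.getD j 0 * (a r s (i + j + sh) : ℤ) : ℤ)) : ℝ) < 0 := by exact_mod_cast h
  push_cast at h2
  linarith

lemma not_ilc_of_fail {r s : ℕ} (h : Fail r s) :
    ¬ InfinitelyLogConvex (fun n => (a r s n : ℤ)) := by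
  intro hI
  obtain ⟨n, hn⟩ := h
  have h1 := hI 1 le_rfl n
  simp only [Function.iterate_one, L] at h1
  have h2 : ((a r s n : ℤ)) * (a r s (n + 2)) < (a r s (n + 1) : ℤ) ^ 2 := by exact_mod_cast hn
  linarith

theorem main :
    (∀ r s : ℕ, 3 ≤ r → 1 ≤ s → s ≤ 2 * r → ¬ IsStieltjes (fun n => (a r s n : ℝ))) ∧
    (¬ IsStieltjes (fun n => (a 2 1 n : ℝ))) ∧
    (∀ r s : ℕ, 3 ≤ r → 1 ≤ s → s ≤ 2 * r → (r, s) ≠ (3, 5) → (r, s) ≠ (3, 6) →
      ¬ InfinitelyLogConvex (fun n => (a r s n : ℤ))) ∧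
    (∀ r s : ℕ, 1 ≤ s → s ≤ 2 * r → (r, s) ∉ E →
      ∃ n, a r s n * a r s (n + 2) < a r s (n + 1) ^ 2) := by
  refine ⟨?_, ?_, ?_, ?_⟩
  · intro r s hr hs h
    rcases region' r s hs h with h1 | h1
    · exact not_stieltjes_of_fail h1
    · obtain ⟨q, hq, h2, h3⟩ := E_split (r, s) h1 hr
      have h4 := H_check q hq
      simp only at h2 h3
      rw [h2, h3] at h4
      exact not_stieltjes_of_qz h4
  · have h4 := H_check _ (List.mem_cons_self (l := H.tail) (a := H.head (by decide)))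
    exact not_stieltjes_of_qz h4
  · intro r s hr hs h n1 n2
    rcases region' r s hs h with h1 | h1
    · exact not_ilc_of_fail h1
    · obtain ⟨q, hq, h2, h3⟩ := E_split' (r, s) h1 hr n1 n2
      have h4 := K_check q hq
      simp only at h2 h3
      rw [h2, h3, Lk_eq] at h4
      intro hI
      have h5 := hI _ h4.1 q.2.2.2
      linarith [h4.2]
  · intro r s hs h hE
    rcases region' r s hs h with h1 | h1
    · exact h1
    · exact absurd h1 hE

end Pool.Agent.H994.AP
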