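import Pool.Agent.H994.AP.Core
import Pool.Agent.H994.AP.Moment
import Pool.Agent.H994.AP.C12
import Pool.Agent.H994.AP.C13
import Pool.Agent.H994.AP.C23
import Pool.Agent.H994.AP.Checks3b

set_option autoImplicit false

namespace Pool.Agent.H994.AP.Three

open Pool.Agent.H994.AP

theorem final (hA2 : PieceA2) (hB : PieceB) :
    (∀ r s : ℕ, 1 ≤ s → s ≤ 3 * r → IsStieltjes (fun n => (a r s n : ℝ)) →
      (r, s) = (1, 1) ∨ (r, s) = (2, 2) ∨ (r, s) = (2, 4) ∨ (r, s) = (2, 5) ∨ (r, s) = (2, 6)) ∧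
    (∀ M : ℕ, ∃ R : ℕ, ∀ r s : ℕ, R ≤ r → s ≤ M * r →
      (∃ n, a r s n * a r s (n + 2) < a r s (n + 1) ^ 2) ∧
      ¬ IsStieltjes (fun n => (a r s n : ℝ)) ∧
      ¬ InfinitelyLogConvex (fun n => (a r s n : ℤ))) ∧
    (∀ r s : ℕ, 3 ≤ r → 1 ≤ s → s ≤ 3 * r → (r, s) ∉ X →
      ¬ InfinitelyLogConvex (fun n => (a r s n : ℤ))) ∧
    (∀ r s : ℕ, 1 ≤ s → s ≤ 3 * r → (r, s) ∉ E →
      ∃ n, a r s n * a r s (n + 2) < a r s (n + 1) ^ 2) := by
  refine ⟨?_, ?_, ?_, ?_⟩
  · intro r s hs hsr hS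
    rcases region' r s hs hsr with h | h
    · exact absurd hS (not_stieltjes_of_fail h)
    · rcases Nat.lt_or_ge r 3 with hr | hr
      · rcases E_small (r, s) h hr with h1 | h1 | h1 | h1 | h1 | h1 | h1 | h1 | h1
        · exact Or.inl h1
        · obtain ⟨rfl, rfl⟩ := Prod.mk.inj h1
          exact absurd hS main.2.1
        · obtain ⟨rfl, rfl⟩ := Prod.mk.inj h1
          exact absurd hS c12_not
        · exact Or.inr (Or.inl h1)
        · obtain ⟨rfl, rfl⟩ := Prod.mk.inj h1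
          exact absurd hS c13_not
        · obtain ⟨rfl, rfl⟩ := Prod.mk.inj h1
          exact absurd hS c23_not
        · exact Or.inr (Or.inr (Or.inl h1))
        · exact Or.inr (Or.inr (Or.inr (Or.inl h1)))
        · exact Or.inr (Or.inr (Or.inr (Or.inr h1)))
      · exact absurd hS (not_E r s hr h)
  · intro M
    obtain ⟨R, hR⟩ := hB (core_of hA2) M
    refine ⟨R, fun r s hr hs => ?_⟩
    have h := hR r s hr hs
    exact ⟨h, not_stieltjes_of_fail h, not_ilc_of_fail h⟩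
  · intro r s hr hs hsr hX
    rcases region' r s hs hsr with h | h
    · exact not_ilc_of_fail h
    · exact not_ilc_E r s hr h hX
  · intro r s hs hsr hE
    rcases region' r s hs hsr with h | h
    · exact h
    · exact absurd h hE

end Pool.Agent.H994.AP.Three
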