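import Pool.Agent.H994.AP.Sec

/-!
# Piece B: the compactness argument
-/

set_option autoImplicit false

namespace Pool.Agent.H994.AP

open Filter Topology

theorem term_eq {r s n k : ℕ} (hr : 0 < r) (hk : k ≤ n) :
    ((n.choose k : ℝ)) ^ r * (((n + k).choose k : ℝ)) ^ s = Real.exp (r * phi (s / r) n k) := by
  have h1 : (0 : ℝ) < n.choose k := by exact_mod_cast Nat.choose_pos hk
  have h2 : (0 : ℝ) < (n + k).choose k := by exact_mod_cast Nat.choose_pos (Nat.le_add_left k n)
  have hr' : (r : ℝ) ≠ 0 := by exact_mod_cast hr.ne'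
  have e : (r : ℝ) * phi (s / r) n k =
      r * Real.log (n.choose k) + s * Real.log ((n + k).choose k) := by
    unfold phi
    field_simp
  rw [e, Real.exp_add, Real.exp_nat_mul, Real.exp_nat_mul, Real.exp_log h1, Real.exp_log h2]

theorem a_cast (r s n : ℕ) : (a r s n : ℝ) =
    ∑ k ∈ Finset.range (n + 1), ((n.choose k : ℝ)) ^ r * (((n + k).choose k : ℝ)) ^ s := by
  unfold a
  push_cast
  rfl

theorem lower {r s n : ℕ} (hr : 0 < r) : Real.exp (r * F (s / r) n) ≤ a r s n := by
  obtain ⟨k, hk, he⟩ := Finset.exists_mem_eq_sup' (s := Finset.range (n + 1)) ⟨0, by simp⟩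
    (phi (s / r) n)
  unfold F
  rw [he, ← term_eq hr (by simpa [Nat.lt_succ_iff] using hk), a_cast]
  exact Finset.single_le_sum
    (f := fun k => ((n.choose k : ℝ)) ^ r * (((n + k).choose k : ℝ)) ^ s)
    (fun _ _ => by positivity) hk

theorem upper {r s n : ℕ} (hr : 0 < r) : (a r s n : ℝ) ≤ (n + 1) * Real.exp (r * F (s / r) n) := by
  rw [a_cast]
  have h : ∀ k ∈ Finset.range (n + 1),
      ((n.choose k : ℝ)) ^ r * (((n + k).choose k : ℝ)) ^ s ≤ Real.exp (r * F (s / r) n) := by
    intro k hk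
    rw [term_eq hr (by simpa [Nat.lt_succ_iff] using hk)]
    apply Real.exp_le_exp.2
    apply mul_le_mul_of_nonneg_left _ (Nat.cast_nonneg _)
    exact Finset.le_sup' (phi (s / r) n) hk
  have := Finset.sum_le_card_nsmul _ _ _ h
  rw [Finset.card_range, nsmul_eq_mul] at this
  push_cast at this
  exact this

theorem key {r s : ℕ} (hr : 0 < r) (h : ¬ Fail r s) (n : ℕ) :
    2 * F (s / r) (n + 1) ≤ F (s / r) n + F (s / r) (n + 2) +
      (Real.log (n + 1) + Real.log (n + 3)) / r := by
  unfold Fail at h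
  push Not at h
  have h1 : ((a r s (n + 1) : ℝ)) ^ 2 ≤ a r s n * a r s (n + 2) := by exact_mod_cast h n
  have hr' : (0 : ℝ) < r := by exact_mod_cast hr
  have h2 : Real.exp (r * F (s / r) (n + 1)) ^ 2 ≤
      ((n + 1) * Real.exp (r * F (s / r) n)) * ((n + 3) * Real.exp (r * F (s / r) (n + 2))) := by
    calc Real.exp (r * F (s / r) (n + 1)) ^ 2 ≤ ((a r s (n + 1) : ℝ)) ^ 2 :=
          pow_le_pow_left₀ (Real.exp_pos _).le (lower hr) 2
      _ ≤ a r s n * a r s (n + 2) := h1
      _ ≤ _ := by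
        apply mul_le_mul (upper hr) _ (Nat.cast_nonneg _) (by positivity)
        have := upper (r := r) (s := s) (n := n + 2) hr
        push_cast at this
        have e : ((n : ℝ) + 2 + 1) = n + 3 := by ring
        rwa [e] at this
  have hn1 : (0 : ℝ) < n + 1 := by positivity
  have hn3 : (0 : ℝ) < n + 3 := by positivity
  have h3 : Real.exp (2 * (r * F (s / r) (n + 1))) ≤
      Real.exp (Real.log (n + 1) + r * F (s / r) n + (Real.log (n + 3) + r * F (s / r) (n + 2))) := by
    rw [Real.exp_add, Real.exp_add, Real.exp_add, Real.exp_log hn1, Real.exp_log hn3]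
    have e : Real.exp (2 * (r * F (s / r) (n + 1))) = Real.exp (r * F (s / r) (n + 1)) ^ 2 := by
      rw [← Real.exp_nat_mul]
      norm_num
    rw [e]
    exact h2
  have h4 := Real.exp_le_exp.1 h3
  have h5 : (r : ℝ) * (2 * F (s / r) (n + 1)) ≤ r * (F (s / r) n + F (s / r) (n + 2) +
      (Real.log (n + 1) + Real.log (n + 3)) / r) := by
    have e : (r : ℝ) * (F (s / r) n + F (s / r) (n + 2) +
      (Real.log (n + 1) + Real.log (n + 3)) / r) =
      r * F (s / r) n + r * F (s / r) (n + 2) + (Real.log (n + 1) + Real.log (n + 3)) := by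
      field_simp
    rw [e]
    linarith
  exact le_of_mul_le_mul_left h5 hr'

theorem F_cont (n : ℕ) : Continuous (fun l => F l n) := by
  unfold F
  apply Continuous.finset_sup'_apply
  intro i _
  unfold phi
  fun_prop

theorem pieceB : PieceB := by
  intro hcore M
  by_contra hcon
  push Not at hcon
  have hc : ∀ i : ℕ, ∃ r s : ℕ, i + 1 ≤ r ∧ s ≤ M * r ∧ ¬ Fail r s := fun i => hcon (i + 1)
  choose r s hr hs hF using hc
  have hr0 : ∀ i, 0 < r i := fun i => lt_of_lt_of_le (Nat.succ_pos i) (hr i)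
  have hmem : ∀ i, ((s i : ℝ) / r i) ∈ Set.Icc (0 : ℝ) M := by
    intro i
    have h0 : (0 : ℝ) < r i := by exact_mod_cast hr0 i
    refine ⟨by positivity, ?_⟩
    rw [div_le_iff₀ h0]
    exact_mod_cast hs i
  obtain ⟨l, hl, φ, hφ, hlim⟩ := isCompact_Icc.tendsto_subseq hmem
  obtain ⟨n, hn⟩ := hcore l hl.1
  have hrt : Tendsto (fun i => ((r (φ i) : ℕ) : ℝ)) atTop atTop := by
    apply tendsto_natCast_atTop_atTop.comp
    apply tendsto_atTop_mono (f := fun i : ℕ => i)
    · intro i
      have h1 := hφ.id_le i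
      have h2 := hr (φ i)
      simp only [id] at h1
      omega
    · exact tendsto_id
  have h1 : Tendsto (fun i => 2 * F ((s (φ i) : ℝ) / r (φ i)) (n + 1)) atTop
      (𝓝 (2 * F l (n + 1))) :=
    (((F_cont (n + 1)).tendsto l).comp hlim).const_mul 2
  have h2 : Tendsto (fun i => F ((s (φ i) : ℝ) / r (φ i)) n + F ((s (φ i) : ℝ) / r (φ i)) (n + 2) +
      (Real.log (n + 1) + Real.log (n + 3)) / ((r (φ i) : ℕ) : ℝ)) atTop
      (𝓝 (F l n + F l (n + 2) + 0)) := by
    refine Tendsto.add (Tendsto.add ?_ ?_) ?_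
    · exact ((F_cont n).tendsto l).comp hlim
    · exact ((F_cont (n + 2)).tendsto l).comp hlim
    · exact Tendsto.div_atTop tendsto_const_nhds hrt
  have h3 := le_of_tendsto_of_tendsto' h1 h2 (fun i => key (hr0 (φ i)) (hF (φ i)) n)
  rw [add_zero] at h3
  linarith

end Pool.Agent.H994.AP
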