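import Pool.Agent.H994.AP.Basic

/-!
# Sectors: definitions and pieces (statements only in `Sec.md`)
-/

set_option autoImplicit false

namespace Pool.Agent.H994.AP

noncomputable def phi (l : ℝ) (n k : ℕ) : ℝ :=
  Real.log (n.choose k) + l * Real.log ((n + k).choose k)

noncomputable def F (l : ℝ) (n : ℕ) : ℝ :=
  (Finset.range (n + 1)).sup' ⟨0, by simp⟩ (phi l n)

/-- piece A1 (helper994) -/
def PieceA1 : Prop := ∀ l : ℝ, 0 < l → ∀ J : ℕ, ∃ n k : ℕ, k + J ≤ n ∧ F l n = phi l n k ∧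
  F l (n + 2) = phi l (n + 2) (k + 2)

/-- piece A2 -/
def PieceA2 : Prop := ∀ (l : ℝ) (n k : ℕ), 0 ≤ l → k ≤ n → l < (n : ℝ) - k →
  phi l n k + phi l (n + 2) (k + 2) < 2 * phi l (n + 1) (k + 1)

/-- piece A3 -/
def PieceA3 : Prop := F 0 1 + F 0 3 < 2 * F 0 2

/-- core claim -/
def Core : Prop := ∀ l : ℝ, 0 ≤ l → ∃ n, F l n + F l (n + 2) < 2 * F l (n + 1)

/-- piece B -/
def PieceB : Prop := Core → ∀ M : ℕ, ∃ R : ℕ, ∀ r s : ℕ, R ≤ r → s ≤ M * r → Fail r s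

end Pool.Agent.H994.AP
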